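import Pool.Agent.Helper60.SB.Defs5
import Pool.Agent.Helper60.SB.Link
import Pool.Agent.Helper68.SB.M11

/-!
Module P1 of MP_7fc85e_an (stage 3B): entropy of the level sets for `p = 1`.
-/

open Finset MeasureTheory
open scoped ENNReal Real

namespace Pool.Agent.Helper26.SB

open Pool.Agent.Helper60.SB

namespace P1

/-- the coefficient vector of `conj(μ) * cco z` -/
noncomputable def wv {d : ℕ} (Q : Finset (Fin d → ℤ)) (μ : (Fin d → ℤ) → ℂ)
    (z : Q × Bool → ℝ) (i : Q × Bool) : ℝ :=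
  if i.2 then (μ i.1).re * z (i.1, true) - (μ i.1).im * z (i.1, false)
  else (μ i.1).re * z (i.1, false) + (μ i.1).im * z (i.1, true)

/-- as a linear map -/
noncomputable def wl {d : ℕ} (Q : Finset (Fin d → ℤ)) (μ : (Fin d → ℤ) → ℂ) :
    (Q × Bool → ℝ) →ₗ[ℝ] (Q × Bool → ℝ) where
  toFun := wv Q μ
  map_add' y z := by
    funext i
    simp only [wv, Pi.add_apply]
    split_ifs <;> ring
  map_smul' c z := by
    funext i
    simp only [wv, Pi.smul_apply, smul_eq_mul, RingHom.id_apply]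
    split_ifs <;> ring

/-- the seminorm -/
noncomputable def qq {d : ℕ} (Q : Finset (Fin d → ℤ)) (μ : (Fin d → ℤ) → ℂ) :
    Seminorm ℝ (Q × Bool → ℝ) := (supn Q).comp (wl Q μ)

theorem qq_apply {d : ℕ} (Q : Finset (Fin d → ℤ)) (μ : (Fin d → ℤ) → ℂ) (z : Q × Bool → ℝ) :
    qq Q μ z = supn Q (wv Q μ z) := rfl

theorem cco_wv {d : ℕ} (Q : Finset (Fin d → ℤ)) (μ : (Fin d → ℤ) → ℂ) (z : Q × Bool → ℝ)
    (k : Q) : cco (wv Q μ z) k = (starRingEnd ℂ) (μ k) * cco z k := by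
  apply Complex.ext
  · simp [cco, wv]
  · simp [cco, wv]
    ring

theorem TT_wv {d : ℕ} (Q : Finset (Fin d → ℤ)) (μ : (Fin d → ℤ) → ℂ) (z : Q × Bool → ℝ)
    (x : Fin d → ℝ) : TT Q (wv Q μ z) x = Pool.Agent.Helper33.SB.Gf Q μ z x := by
  unfold TT Pool.Agent.Helper33.SB.Gf
  refine Finset.sum_congr rfl fun k _ => ?_
  rw [cco_wv]

/-- multiplication of the coefficients by `-i` -/
def rot {d : ℕ} {Q : Finset (Fin d → ℤ)} (z : Q × Bool → ℝ) (i : Q × Bool) : ℝ :=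
  if i.2 then - z (i.1, false) else z (i.1, true)

theorem supn_rot {d : ℕ} (Q : Finset (Fin d → ℤ)) (z : Q × Bool → ℝ) :
    supn Q (rot z) ≤ supn Q z := by
  refine supn_le Q _ fun x => ?_
  have h : TT Q (rot z) x = -Complex.I * TT Q z x := by
    unfold TT
    rw [Finset.mul_sum]
    refine Finset.sum_congr rfl fun k _ => ?_
    have h1 : cco (rot z) k = -Complex.I * cco z k := by
      apply Complex.ext
      · simp [cco, rot]
      · simp [cco, rot]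
    rw [h1]
    ring
  rw [h, norm_mul, norm_neg, Complex.norm_I, one_mul]
  exact le_supn Q z x

theorem qq_le {d : ℕ} (Q : Finset (Fin d → ℤ)) (μ : (Fin d → ℤ) → ℂ) (z : Q × Bool → ℝ) :
    qq Q μ z ≤ supn Q (fun i => (μ i.1).re * z i) + supn Q (fun i => (μ i.1).im * z i) := by
  have h : wv Q μ z = (fun i => (μ i.1).re * z i) + rot (fun i => (μ i.1).im * z i) := by
    funext i
    obtain ⟨k, b⟩ := i
    cases b
    · simp [wv, rot]
    · simp [wv, rot]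
      ring
  rw [qq_apply, h]
  exact (map_add_le_add _ _ _).trans (add_le_add le_rfl (supn_rot Q _))

/-- multiplication by a weight, as a linear map -/
noncomputable def wm {d : ℕ} (Q : Finset (Fin d → ℤ)) (ζ : (Fin d → ℤ) → ℝ) :
    (Q × Bool → ℝ) →ₗ[ℝ] (Q × Bool → ℝ) where
  toFun z i := ζ i.1 * z i
  map_add' y z := by
    funext i
    simp only [Pi.add_apply]
    ring
  map_smul' c z := by
    funext i
    simp only [Pi.smul_apply, smul_eq_mul, RingHom.id_apply]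
    ring

/-- weighted seminorm -/
noncomputable def ws {d : ℕ} (Q : Finset (Fin d → ℤ)) (ζ : (Fin d → ℤ) → ℝ) :
    Seminorm ℝ (Q × Bool → ℝ) := (supn Q).comp (wm Q ζ)

theorem ws_apply {d : ℕ} (Q : Finset (Fin d → ℤ)) (ζ : (Fin d → ℤ) → ℝ) (z : Q × Bool → ℝ) :
    ws Q ζ z = supn Q (fun i => ζ i.1 * z i) := rfl

theorem int_qq (d : ℕ) : ∃ C : ℝ, 0 < C ∧ ∀ (m : ℕ) (Q : Finset (Fin d → ℤ))
    (μ : (Fin d → ℤ) → ℂ), (∀ k ∈ Q, ∀ j, |k j| ≤ 2 ^ m) → (∀ k, ‖μ k‖ ≤ 1) →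
    ∫ z, qq Q μ z ∂(gau (Q × Bool)) ≤ C * Real.sqrt (Q.card * (m + 1)) := by
  obtain ⟨C, hC, H⟩ := gauss_sup_w d
  refine ⟨2 * C, by positivity, fun m Q μ hQ hμ => ?_⟩
  have key : ∀ ζ : (Fin d → ℤ) → ℝ, (∀ k, |ζ k| ≤ 1) →
      ∫ z, ws Q ζ z ∂(gau (Q × Bool)) ≤ C * Real.sqrt (Q.card * (m + 1)) := by
    intro ζ hζ
    have h1 := H m Q ζ hQ
    simp only [ws_apply]
    refine h1.trans ?_
    refine mul_le_mul_of_nonneg_left (Real.sqrt_le_sqrt ?_) hC.le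
    refine mul_le_mul_of_nonneg_right ?_ (by positivity)
    have h2 : ∑ k ∈ Q, ζ k ^ 2 ≤ ∑ _k ∈ Q, (1 : ℝ) := by
      refine Finset.sum_le_sum fun k _ => ?_
      rw [← sq_abs]
      have := hζ k
      have h0 := abs_nonneg (ζ k)
      nlinarith
    simpa using h2
  have h1 : ∫ z, qq Q μ z ∂(gau (Q × Bool)) ≤
      ∫ z, (ws Q (fun k => (μ k).re) z + ws Q (fun k => (μ k).im) z) ∂(gau (Q × Bool)) := by
    refine integral_mono (Pool.Agent.Helper71.SB.integrable_seminorm _)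
      ((Pool.Agent.Helper71.SB.integrable_seminorm _).add
        (Pool.Agent.Helper71.SB.integrable_seminorm _)) fun z => ?_
    exact qq_le Q μ z
  rw [integral_add (Pool.Agent.Helper71.SB.integrable_seminorm _)
    (Pool.Agent.Helper71.SB.integrable_seminorm _)] at h1
  have h2 := key (fun k => (μ k).re) fun k => (Complex.abs_re_le_norm _).trans (hμ k)
  have h3 := key (fun k => (μ k).im) fun k => (Complex.abs_im_le_norm _).trans (hμ k)
  linarith

/-- duality -/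
theorem dual {d : ℕ} (Q : Finset (Fin d → ℤ)) (μ : (Fin d → ℤ) → ℂ) (y : Q × Bool → ℝ)
    (hy : y ∈ Sset Q Unit (fun _ => ()) μ 1) (z : Q × Bool → ℝ) :
    ∑ i, y i * z i ≤ qq Q μ z := by
  have := Pool.Agent.Helper33.SB.tor_prob d
  obtain ⟨h, hh, hk⟩ := hy
  have hint : Integrable (h ()) (tor d) := memLp_one_iff_integrable.mp (hh ()).1
  have hint2 : ∀ k : Fin d → ℤ, Integrable (fun x => h () x * ex (-k) x) (tor d) := by
    intro k
    refine hint.mul_bdd (c := 1) (Pool.Agent.Helper33.SB.continuous_ex _).aestronglyMeasurable ?_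
    exact Filter.Eventually.of_forall fun x => by rw [norm_ex]
  have h1 : ∫ x, h () x * (starRingEnd ℂ) (Pool.Agent.Helper33.SB.Gf Q μ z x) ∂(tor d) =
      ∑ k : Q, cco y k * (starRingEnd ℂ) (cco z k) := by
    have : ∀ x, h () x * (starRingEnd ℂ) (Pool.Agent.Helper33.SB.Gf Q μ z x) =
        ∑ k : Q, μ k * (starRingEnd ℂ) (cco z k) *
          (h () x * ex (-(k : Fin d → ℤ)) x) := by
      intro x
      unfold Pool.Agent.Helper33.SB.Gf
      rw [map_sum, Finset.mul_sum]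
      refine Finset.sum_congr rfl fun k _ => ?_
      rw [map_mul, map_mul, Complex.conj_conj, Pool.Agent.Helper33.SB.ex_neg]
      ring
    simp_rw [this]
    rw [integral_finsetSum (f := fun (k : Q) x => μ k * (starRingEnd ℂ) (cco z k) *
          (h () x * ex (-(k : Fin d → ℤ)) x)) _ fun k _ => (hint2 k).const_mul _]
    refine Finset.sum_congr rfl fun k _ => ?_
    rw [integral_const_mul, hk k]
    unfold fc
    ring
  have h3 : ∑ i, y i * z i = (∑ k : Q, cco y k * (starRingEnd ℂ) (cco z k)).re := by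
    rw [Complex.re_sum, Fintype.sum_prod_type]
    refine Finset.sum_congr rfl fun k _ => ?_
    simp only [cco, Fintype.sum_bool, map_add, map_mul, Complex.conj_ofReal, Complex.conj_I,
      Complex.mul_re, Complex.add_re, Complex.add_im, Complex.ofReal_re, Complex.ofReal_im,
      Complex.I_re, Complex.I_im, Complex.mul_im, Complex.neg_re, Complex.neg_im]
    ring
  have h4 : ∫ x, ‖h () x‖ ∂(tor d) ≤ 1 := by
    have h5 := (hh ()).2
    rw [eLpNorm_one_eq_lintegral_enorm] at h5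
    rw [integral_norm_eq_lintegral_enorm hint.1]
    have := ENNReal.toReal_mono ENNReal.one_ne_top h5
    simpa using this
  rw [h3, ← h1]
  calc (∫ x, h () x * (starRingEnd ℂ) (Pool.Agent.Helper33.SB.Gf Q μ z x) ∂(tor d)).re
      ≤ ‖∫ x, h () x * (starRingEnd ℂ) (Pool.Agent.Helper33.SB.Gf Q μ z x) ∂(tor d)‖ :=
        Complex.re_le_norm _
    _ ≤ ∫ x, ‖h () x * (starRingEnd ℂ) (Pool.Agent.Helper33.SB.Gf Q μ z x)‖ ∂(tor d) :=
        norm_integral_le_integral_norm _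
    _ ≤ ∫ x, ‖h () x‖ * qq Q μ z ∂(tor d) := by
        refine integral_mono_of_nonneg (Filter.Eventually.of_forall fun x => norm_nonneg _)
          (hint.norm.mul_const _) (Filter.Eventually.of_forall fun x => ?_)
        simp only [norm_mul, RCLike.norm_conj]
        refine mul_le_mul_of_nonneg_left ?_ (norm_nonneg _)
        rw [← TT_wv, qq_apply]
        exact le_supn Q _ x
    _ = (∫ x, ‖h () x‖ ∂(tor d)) * qq Q μ z := by rw [integral_mul_const]
    _ ≤ 1 * qq Q μ z := mul_le_mul_of_nonneg_right h4 (apply_nonneg _ _)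
    _ = qq Q μ z := one_mul _

end P1

open P1 in
theorem Sset_one_l2 (d : ℕ) : ∃ C : ℝ, 0 < C ∧ ∀ (m : ℕ) (Q : Finset (Fin d → ℤ))
    (μ : (Fin d → ℤ) → ℂ), (∀ k ∈ Q, ∀ j, |k j| ≤ 2 ^ m) → (∀ k, ‖μ k‖ ≤ 1) → ∀ ε : ℝ, 0 < ε →
      Cov (Sset Q Unit (fun _ => ()) μ 1) (eucl ε) (C * (Q.card * (m + 1) / ε ^ 2)) := by
  obtain ⟨C1, hC1, H1⟩ := sudakov
  obtain ⟨C2, hC2, H2⟩ := int_qq d
  refine ⟨C1 * C2 ^ 2, by positivity, fun m Q μ hQ hμ ε hε => ?_⟩
  rcases Q.eq_empty_or_nonempty with hQe | hQe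
  · subst hQe
    refine ⟨{0}, by simp, ?_⟩
    intro a _
    refine ⟨0, by simp, ?_⟩
    unfold eucl
    rw [Finset.univ_eq_empty, Finset.sum_empty]
    positivity
  · have hQc : (0 : ℝ) < Q.card := by exact_mod_cast hQe.card_pos
    have hl : 0 < C2 * Real.sqrt (Q.card * (m + 1)) :=
      mul_pos hC2 (Real.sqrt_pos.2 (by positivity))
    obtain ⟨t, ht, ht2⟩ := H1 (Q × Bool) (qq Q μ) _ hl (H2 m Q μ hQ hμ) ε hε
    refine ⟨t, ht.trans (le_of_eq ?_), fun a ha => ht2 a (fun z => dual Q μ a ha z)⟩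
    congr 1
    rw [div_pow, mul_pow, Real.sq_sqrt (by positivity)]
    ring

open Pool.Agent.Helper50.SB in
theorem level_entropy_W1 (d : ℕ) : ∃ C : ℝ, 1 ≤ C ∧
    ∀ (m : ℕ) (Q : Finset (Fin d → ℤ)) (μ : (Fin d → ℤ) → ℂ),
      (∀ k ∈ Q, ∀ j, |k j| ≤ 2 ^ m) → (∀ k, ‖μ k‖ ≤ 1) → ∀ j : ℕ,
      Cov (Sset Q Unit (fun _ => ()) μ 1)
        (fun a y => supn Q (a - y) ≤ C * ((m : ℝ) + 1) * (2 : ℝ) ^ (-(j : ℝ)))
        (C * (1 + j) * Q.card + 1) ∧
      Cov (Sset Q Unit (fun _ => ()) μ 1)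
        (fun a y => supn Q (a - y) ≤ C * ((m : ℝ) + 1) * (2 : ℝ) ^ (j : ℝ))
        (C * (1 + j) * Q.card * (2 : ℝ) ^ (-(j : ℝ)) + 1) := by
  obtain ⟨C4, hC4, h4⟩ := l2linf d
  obtain ⟨C7, hC7, h7⟩ := Sset_one_l2 d
  refine ⟨C4 + C7 + 1, by linarith, fun m Q μ hQ hμ j => ?_⟩
  have hj0 : (0 : ℝ) ≤ j := Nat.cast_nonneg _
  have hn0 : (0 : ℝ) ≤ Q.card := Nat.cast_nonneg _
  have hm0 : (0 : ℝ) < (m : ℝ) + 1 := by positivity
  have hs : 0 < Real.sqrt ((m : ℝ) + 1) := Real.sqrt_pos.2 hm0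
  have hss : Real.sqrt ((m : ℝ) + 1) * Real.sqrt ((m : ℝ) + 1) = (m : ℝ) + 1 :=
    Real.mul_self_sqrt hm0.le
  obtain ⟨h4a, h4b⟩ := h4 m Q hQ j
  constructor
  · have h5 := h7 m Q μ hQ hμ _ hs
    refine cov_mono (cov_comp _ hs h5 h4a) (fun a y h => h.trans ?_) ?_
    · have e : Real.sqrt ((m : ℝ) + 1) * (C4 * Real.sqrt (m + 1) * (2 : ℝ) ^ (-(j : ℝ))) =
          C4 * ((m : ℝ) + 1) * (2 : ℝ) ^ (-(j : ℝ)) := by
        calc _ = C4 * (Real.sqrt ((m : ℝ) + 1) * Real.sqrt ((m : ℝ) + 1)) *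
              (2 : ℝ) ^ (-(j : ℝ)) := by ring
          _ = _ := by rw [hss]
      rw [e]
      gcongr
      linarith
    · have e : C7 * (Q.card * ((m : ℝ) + 1) / Real.sqrt ((m : ℝ) + 1) ^ 2) = C7 * Q.card := by
        rw [Real.sq_sqrt hm0.le]
        field_simp
      rw [e]
      have h6 : 0 ≤ C7 * j * (Q.card : ℝ) := by positivity
      have h9 : 0 ≤ (1 + j) * (Q.card : ℝ) := by positivity
      nlinarith
  · have h2j : (0 : ℝ) < (2 : ℝ) ^ ((j : ℝ) / 2) := by positivity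
    have h5 := h7 m Q μ hQ hμ (Real.sqrt ((m : ℝ) + 1) * (2 : ℝ) ^ ((j : ℝ) / 2)) (by positivity)
    have e2 : (2 : ℝ) ^ ((j : ℝ) / 2) * (2 : ℝ) ^ ((j : ℝ) / 2) = (2 : ℝ) ^ (j : ℝ) := by
      rw [← Real.rpow_add (by norm_num)]
      congr 1
      ring
    refine cov_mono (cov_comp _ (by positivity) h5 h4b) (fun a y h => h.trans ?_) ?_
    · have e : Real.sqrt ((m : ℝ) + 1) * (2 : ℝ) ^ ((j : ℝ) / 2) *
          (C4 * Real.sqrt (m + 1) * (2 : ℝ) ^ ((j : ℝ) / 2)) =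
          C4 * ((m : ℝ) + 1) * (2 : ℝ) ^ (j : ℝ) := by
        calc _ = C4 * (Real.sqrt ((m : ℝ) + 1) * Real.sqrt ((m : ℝ) + 1)) *
              ((2 : ℝ) ^ ((j : ℝ) / 2) * (2 : ℝ) ^ ((j : ℝ) / 2)) := by ring
          _ = _ := by rw [hss, e2]
      rw [e]
      gcongr
      linarith
    · have e : C7 * (Q.card * ((m : ℝ) + 1) / (Real.sqrt ((m : ℝ) + 1) *
          (2 : ℝ) ^ ((j : ℝ) / 2)) ^ 2) = C7 * (Q.card * (2 : ℝ) ^ (-(j : ℝ))) := by
        have e3 : ((2 : ℝ) ^ ((j : ℝ) / 2)) ^ 2 = (2 : ℝ) ^ (j : ℝ) := by rw [sq, e2]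
        rw [mul_pow, Real.sq_sqrt hm0.le, e3, Real.rpow_neg (by norm_num)]
        have : (0 : ℝ) < (2 : ℝ) ^ (j : ℝ) := by positivity
        field_simp
      rw [e]
      set T : ℝ := Q.card * (2 : ℝ) ^ (-(j : ℝ)) with hT
      have hT0 : 0 ≤ T := by positivity
      have e4 : (C4 + C7 + 1) * (1 + j) * Q.card * (2 : ℝ) ^ (-(j : ℝ)) =
          (C4 + C7 + 1) * (1 + j) * T := by
        rw [hT]; ring
      rw [e4]
      have h6 : 0 ≤ (C4 + C7 + 1) * j * T := by positivity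
      have h8 : 0 ≤ C4 * T := by positivity
      nlinarith

end Pool.Agent.Helper26.SB
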