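import Pool.Agent.Helper26.SB.SLTools

/-!
Module M15: summation over the levels, `r < 1/2`.
-/

open Finset MeasureTheory Filter
open scoped ENNReal Real

namespace Pool.Agent.Helper26.SB

open Pool.Agent.Helper60.SB

namespace SL15

/-- the number of bits -/
noncomputable def kf (X δ : ℝ) (m₀ m : ℕ) : ℝ := X * (2 : ℝ) ^ (-(δ * |(m : ℝ) - m₀|))

/-- the accuracy -/
noncomputable def ef (a b κ C X δ : ℝ) (m₀ m : ℕ) : ℝ :=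
  if m ≤ m₀ then C * ((m : ℝ) + 1) ^ a * Real.sqrt (((m : ℝ) + 1) ^ b * 2 ^ m / kf X δ m₀ m)
  else C * ((m : ℝ) + 1) ^ a * (((m : ℝ) + 1) ^ b * 2 ^ m / kf X δ m₀ m) ^ κ

theorem kf_low (X δ : ℝ) (m₀ i : ℕ) (hi : i ≤ m₀) :
    kf X δ m₀ (m₀ - i) = X * (2 : ℝ) ^ (-(δ * (i : ℝ))) := by
  unfold kf
  have h3 : ((m₀ - i : ℕ) : ℝ) - m₀ = -(i : ℝ) := by push_cast [hi]; ring
  rw [h3, abs_neg, abs_of_nonneg (by positivity)]

theorem kf_high (X δ : ℝ) (m₀ i : ℕ) :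
    kf X δ m₀ (m₀ + 1 + i) = X * (2 : ℝ) ^ (-(δ * ((i + 1 : ℕ) : ℝ))) := by
  unfold kf
  have h3 : ((m₀ + 1 + i : ℕ) : ℝ) - m₀ = ((i + 1 : ℕ) : ℝ) := by push_cast; ring
  rw [h3, abs_of_nonneg (by positivity)]

theorem sum_kf (δ : ℝ) (hδ : 0 < δ) : ∃ M : ℝ, 0 < M ∧ ∀ (X : ℝ) (m₀ N : ℕ), 0 < X →
    ∑ m ∈ range (m₀ + 1 + N), (kf X δ m₀ m + 1) ≤ M * X + ((m₀ + 1 + N : ℕ) : ℝ) := by
  obtain ⟨M₁, hM₁, s₁⟩ := sum_bound 0 δ le_rfl hδ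
  refine ⟨M₁ + M₁, by positivity, fun X m₀ N hX => ?_⟩
  have h := split_sum m₀ N (fun m => kf X δ m₀ m + 1)
    (fun i => ((i : ℝ) + 1) ^ (0 : ℝ) * (2 : ℝ) ^ (-(δ * (i : ℝ))))
    (fun i => ((i : ℝ) + 1) ^ (0 : ℝ) * (2 : ℝ) ^ (-(δ * (i : ℝ))))
    X X 1 M₁ M₁ hX.le hX.le ?_ ?_ s₁ s₁ (by positivity)
  · refine h.trans (le_of_eq ?_)
    ring
  · intro i hi
    rw [kf_low _ _ _ _ hi, Real.rpow_zero, one_mul]
  · intro i
    rw [kf_high, Real.rpow_zero, one_mul]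

theorem sum_ef (r κ a b C δ : ℝ) (hκ : 0 < κ) (hab : 0 ≤ a + b / 2)
    (hab2 : 0 ≤ a + b * κ) (hC : 1 ≤ C) (hδ1 : δ < 1 - 2 * r)
    (hδ2 : δ * κ < r - κ) :
    ∃ M : ℝ, 0 < M ∧ ∀ (X : ℝ) (m₀ N : ℕ), ((m₀ : ℝ) + 1) ^ b * 2 ^ m₀ ≤ X →
      ∑ m ∈ range (m₀ + 1 + N), (2 : ℝ) ^ (-(r * m)) * ef a b κ C X δ m₀ m ≤
        M * (((m₀ : ℝ) + 1) ^ a * (2 : ℝ) ^ (-(r * m₀))) := by
  obtain ⟨M₁, hM₁, s₁⟩ := sum_bound 0 ((1 - δ) / 2 - r) le_rfl (by linarith)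
  obtain ⟨M₂, hM₂, s₂⟩ := sum_bound (a + b * κ) (r - κ - δ * κ) hab2 (by linarith)
  refine ⟨C * M₁ + C * M₂, by positivity, fun X m₀ N hX => ?_⟩
  have hm0 : (0 : ℝ) ≤ m₀ := by positivity
  have hX' : ((m₀ : ℝ) + 1) ^ b * (2 : ℝ) ^ (m₀ : ℝ) ≤ X := by
    rwa [Real.rpow_natCast]
  have h := split_sum m₀ N (fun m => (2 : ℝ) ^ (-(r * m)) * ef a b κ C X δ m₀ m)
    (fun i => ((i : ℝ) + 1) ^ (0 : ℝ) * (2 : ℝ) ^ (-(((1 - δ) / 2 - r) * (i : ℝ))))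
    (fun i => ((i : ℝ) + 1) ^ (a + b * κ) * (2 : ℝ) ^ (-((r - κ - δ * κ) * (i : ℝ))))
    (C * (((m₀ : ℝ) + 1) ^ a * (2 : ℝ) ^ (-(r * m₀))))
    (C * (((m₀ : ℝ) + 1) ^ a * (2 : ℝ) ^ (-(r * m₀)))) 0
    M₁ M₂ (by positivity) (by positivity) ?_ ?_ s₁ s₂ (by positivity)
  · refine h.trans (le_of_eq ?_)
    ring
  · intro i hi
    have h2 : m₀ - i ≤ m₀ := Nat.sub_le _ _
    simp only [ef]
    rw [if_pos h2, kf_low _ _ _ _ hi, Real.rpow_zero, one_mul, add_zero]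
    have h3 : ((m₀ - i : ℕ) : ℝ) = m₀ - i := by push_cast [hi]; ring
    have hi0 : (0 : ℝ) ≤ i := by positivity
    have hi1 : (i : ℝ) ≤ m₀ := by exact_mod_cast hi
    have hy : (0 : ℝ) < ((m₀ - i : ℕ) : ℝ) + 1 := by positivity
    have hk := key_ineq a b (1 / 2) ((m₀ : ℝ) + 1) (((m₀ - i : ℕ) : ℝ) + 1) X
      (((m₀ - i : ℕ) : ℝ)) (δ * i) m₀ (by norm_num) (by positivity) hy hX'
    rw [Real.rpow_natCast, ← Real.sqrt_eq_rpow] at hk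
    have h4 : ((((m₀ - i : ℕ) : ℝ) + 1) / ((m₀ : ℝ) + 1)) ^ (a + b * (1 / 2)) ≤ 1 := by
      refine Real.rpow_le_one (by positivity) ?_ (by linarith)
      rw [div_le_one (by positivity), h3]
      linarith
    have h5 : (2 : ℝ) ^ (-(r * ((m₀ - i : ℕ) : ℝ))) *
        (2 : ℝ) ^ ((((m₀ - i : ℕ) : ℝ) - m₀ + δ * i) * (1 / 2)) =
        (2 : ℝ) ^ (-(r * m₀)) * (2 : ℝ) ^ (-(((1 - δ) / 2 - r) * (i : ℝ))) := by
      rw [← Real.rpow_add (by norm_num), ← Real.rpow_add (by norm_num), h3]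
      congr 1
      ring
    calc (2 : ℝ) ^ (-(r * ((m₀ - i : ℕ) : ℝ))) * (C * (((m₀ - i : ℕ) : ℝ) + 1) ^ a *
          Real.sqrt ((((m₀ - i : ℕ) : ℝ) + 1) ^ b * 2 ^ (m₀ - i) /
            (X * (2 : ℝ) ^ (-(δ * (i : ℝ))))))
        = C * (2 : ℝ) ^ (-(r * ((m₀ - i : ℕ) : ℝ))) * ((((m₀ - i : ℕ) : ℝ) + 1) ^ a *
          Real.sqrt ((((m₀ - i : ℕ) : ℝ) + 1) ^ b * 2 ^ (m₀ - i) /
            (X * (2 : ℝ) ^ (-(δ * (i : ℝ)))))) := by ring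
      _ ≤ C * (2 : ℝ) ^ (-(r * ((m₀ - i : ℕ) : ℝ))) * (((m₀ : ℝ) + 1) ^ a * 1 *
          (2 : ℝ) ^ ((((m₀ - i : ℕ) : ℝ) - m₀ + δ * i) * (1 / 2))) := by
          refine mul_le_mul_of_nonneg_left (hk.trans ?_) (by positivity)
          gcongr
      _ = C * ((m₀ : ℝ) + 1) ^ a * ((2 : ℝ) ^ (-(r * ((m₀ - i : ℕ) : ℝ))) *
          (2 : ℝ) ^ ((((m₀ - i : ℕ) : ℝ) - m₀ + δ * i) * (1 / 2))) := by ring
      _ = _ := by rw [h5]; ring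
  · intro i
    have h2 : ¬ m₀ + 1 + i ≤ m₀ := by omega
    simp only [ef]
    rw [if_neg h2, kf_high, add_zero]
    set x : ℝ := ((i + 1 : ℕ) : ℝ) with hx
    have hx0 : 0 ≤ x := by positivity
    have h6 : ((m₀ + 1 + i : ℕ) : ℝ) = m₀ + x := by rw [hx]; push_cast; ring
    have hk := key_ineq a b κ ((m₀ : ℝ) + 1) (((m₀ + 1 + i : ℕ) : ℝ) + 1) X
      (((m₀ + 1 + i : ℕ) : ℝ)) (δ * x) m₀ hκ.le (by positivity) (by positivity) hX'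
    rw [Real.rpow_natCast] at hk
    have h4 : ((((m₀ + 1 + i : ℕ) : ℝ) + 1) / ((m₀ : ℝ) + 1)) ^ (a + b * κ) ≤
        (x + 1) ^ (a + b * κ) := by
      refine Real.rpow_le_rpow (by positivity) ?_ hab2
      rw [div_le_iff₀ (by positivity), h6]
      nlinarith
    have h5 : (2 : ℝ) ^ (-(r * ((m₀ + 1 + i : ℕ) : ℝ))) *
        (2 : ℝ) ^ ((((m₀ + 1 + i : ℕ) : ℝ) - m₀ + δ * x) * κ) =
        (2 : ℝ) ^ (-(r * m₀)) * (2 : ℝ) ^ (-((r - κ - δ * κ) * x)) := by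
      rw [← Real.rpow_add (by norm_num), ← Real.rpow_add (by norm_num), h6]
      congr 1
      ring
    calc (2 : ℝ) ^ (-(r * ((m₀ + 1 + i : ℕ) : ℝ))) * (C * (((m₀ + 1 + i : ℕ) : ℝ) + 1) ^ a *
          ((((m₀ + 1 + i : ℕ) : ℝ) + 1) ^ b * 2 ^ (m₀ + 1 + i) /
            (X * (2 : ℝ) ^ (-(δ * x)))) ^ κ)
        = C * (2 : ℝ) ^ (-(r * ((m₀ + 1 + i : ℕ) : ℝ))) * ((((m₀ + 1 + i : ℕ) : ℝ) + 1) ^ a *
          ((((m₀ + 1 + i : ℕ) : ℝ) + 1) ^ b * 2 ^ (m₀ + 1 + i) /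
            (X * (2 : ℝ) ^ (-(δ * x)))) ^ κ) := by ring
      _ ≤ C * (2 : ℝ) ^ (-(r * ((m₀ + 1 + i : ℕ) : ℝ))) * (((m₀ : ℝ) + 1) ^ a *
          (x + 1) ^ (a + b * κ) * (2 : ℝ) ^ ((((m₀ + 1 + i : ℕ) : ℝ) - m₀ + δ * x) * κ)) := by
          refine mul_le_mul_of_nonneg_left (hk.trans ?_) (by positivity)
          gcongr
      _ = C * ((m₀ : ℝ) + 1) ^ a * (x + 1) ^ (a + b * κ) *
          ((2 : ℝ) ^ (-(r * ((m₀ + 1 + i : ℕ) : ℝ))) *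
          (2 : ℝ) ^ ((((m₀ + 1 + i : ℕ) : ℝ) - m₀ + δ * x) * κ)) := by ring
      _ = _ := by rw [h5]; ring

end SL15

open SL15 in
theorem sum_small (e : ℕ) (r κ a b b' C : ℝ) (hκ : 0 < κ) (hκr : κ < r) (hr : r < 1 / 2)
    (ha : 0 ≤ a) (hab : 0 ≤ a + b / 2) (hab2 : 0 ≤ a + b * κ) (hb' : 0 ≤ b') (hC : 1 ≤ C)
    (F : Set ((Fin (e + 1) → ℝ) → ℂ)) (S : ℕ → Set ((Fin (e + 1) → ℝ) → ℂ))
    (covA : ∀ (m : ℕ) (K : ℝ), 0 < K → CovF (S m)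
      (C * ((m : ℝ) + 1) ^ a * Real.sqrt (((m : ℝ) + 1) ^ b * 2 ^ m / K)) (K + 1))
    (covB : ∀ (m : ℕ) (K : ℝ), 0 < K → CovF (S m)
      (C * ((m : ℝ) + 1) ^ a * (((m : ℝ) + 1) ^ b * 2 ^ m / K) ^ κ) (K + 1))
    (dec : ∀ f ∈ F, ∃ g : ℕ → (Fin (e + 1) → ℝ) → ℂ, (∀ m, g m ∈ S m) ∧ ∀ J : ℕ,
      ∀ᵐ x ∂(tor (e + 1)), ‖f x - ∑ m ∈ range J, (((2 : ℝ) ^ (-(r * m)) : ℝ) : ℂ) * g m x‖ ≤
        C * ((J : ℝ) + 1) ^ b' * (2 : ℝ) ^ (-((r - κ) * J))) :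
    ∃ C' > 0, ∃ n₀ : ℕ, ∀ n ≥ n₀, entropyNumber n F ≤
      ENNReal.ofReal (C' * (n : ℝ) ^ (-r) * Real.log n ^ (a + b * r)) := by
  have hr0 : 0 < r := hκ.trans hκr
  have hrκ : 0 < r - κ := by linarith
  have hl2 : 0 < Real.log 2 := Real.log_pos (by norm_num)
  have habr : 0 ≤ a + b * r := by
    rcases le_or_gt 0 b with hb | hb
    · positivity
    · nlinarith
  -- parameters
  set δ : ℝ := min ((1 - 2 * r) / 2) ((r - κ) / (2 * κ)) with hδ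
  have hδ0 : 0 < δ := lt_min (by linarith) (by positivity)
  have hδ1 : δ < 1 - 2 * r := lt_of_le_of_lt (min_le_left _ _) (by linarith)
  have hδ2 : δ * κ < r - κ := by
    have h1 : δ ≤ (r - κ) / (2 * κ) := min_le_right _ _
    have h2 : δ * κ ≤ (r - κ) / (2 * κ) * κ := by gcongr
    have h3 : (r - κ) / (2 * κ) * κ = (r - κ) / 2 := by field_simp
    linarith
  obtain ⟨M₁, hM₁, s₁⟩ := sum_kf δ hδ0
  obtain ⟨M₂, hM₂, s₂⟩ := sum_ef r κ a b C δ hκ hab hab2 hC hδ1 hδ2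
  obtain ⟨M₅, hM₅, s₅⟩ := poly_exp b' ((r - κ) / 2) hb' (by positivity)
  set lam : ℕ := ⌈2 * r / (r - κ)⌉₊ with hlam
  have hlam' : 2 * r / (r - κ) ≤ lam := Nat.le_ceil _
  have hlam2 : 2 < 2 * r / (r - κ) := by
    rw [lt_div_iff₀ hrκ]
    linarith
  have hlam3 : 3 ≤ lam := by
    have : (2 : ℝ) < lam := hlam2.trans_le hlam'
    exact_mod_cast this
  set c : ℝ := Real.log 2 / (2 * M₁) with hc
  have hc0 : 0 < c := by positivity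
  set C₂ : ℝ := M₂ + C * M₅ with hC₂
  have hC₂0 : 0 < C₂ := by positivity
  -- the bound for the number of levels
  have hlin : ∀ᶠ n : ℕ in atTop, (lam : ℝ) * (8 * Real.log n) ≤ Real.log 2 / 2 * n := by
    have h1 := Real.isLittleO_log_id_atTop.comp_tendsto (tendsto_natCast_atTop_atTop (R := ℝ))
    have h2 := h1.def (c := Real.log 2 / (2 * (lam * 8 + 1))) (by positivity)
    filter_upwards [h2, eventually_ge_atTop 1] with n hn hn1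
    simp only [Function.comp, id, Real.norm_eq_abs] at hn
    have hn1' : (1 : ℝ) ≤ n := by exact_mod_cast hn1
    rw [abs_of_nonneg (Real.log_nonneg hn1'), abs_of_nonneg (by positivity)] at hn
    have hl0 : (0 : ℝ) ≤ lam := by positivity
    calc (lam : ℝ) * (8 * Real.log n) ≤ (lam * 8 + 1) * Real.log n := by
          nlinarith [Real.log_nonneg hn1']
      _ ≤ (lam * 8 + 1) * (Real.log 2 / (2 * (lam * 8 + 1)) * n) := by gcongr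
      _ = _ := by field_simp
  have hevent := (cross b c hc0).and (hlin.and (eventually_ge_atTop 1))
  obtain ⟨n₀, hn₀⟩ := eventually_atTop.mp hevent
  refine ⟨C₂ * ((2 / c) ^ r * 8 ^ (a + b * r)), by positivity, n₀, fun n hn => ?_⟩
  obtain ⟨⟨m₀, hm1, hPlo, hPup, hmn, -⟩, hlinn, hn1⟩ := hn₀ n hn
  have hn1' : (1 : ℝ) ≤ n := by exact_mod_cast hn1
  have hnpos : (0 : ℝ) < n := by linarith
  have hm0 : (0 : ℝ) ≤ m₀ := by positivity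
  set X : ℝ := c * n with hX
  have hX0 : 0 < X := by positivity
  obtain ⟨N, hN⟩ : ∃ N, lam * m₀ = m₀ + 1 + N := by
    refine ⟨lam * m₀ - (m₀ + 1), ?_⟩
    have : 3 * m₀ ≤ lam * m₀ := Nat.mul_le_mul_right _ hlam3
    omega
  have hK : ∑ m ∈ range (lam * m₀), (kf X δ m₀ m + 1) ≤ n * Real.log 2 := by
    have h1 := s₁ X m₀ N hX0
    rw [← hN] at h1
    refine h1.trans ?_
    have h2 : M₁ * X = Real.log 2 / 2 * n := by
      rw [hX, hc]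
      field_simp
    have h3 : ((lam * m₀ : ℕ) : ℝ) ≤ lam * (8 * Real.log n) := by
      push_cast
      gcongr
      linarith
    linarith
  have hE : ∑ m ∈ range (lam * m₀), (2 : ℝ) ^ (-(r * m)) * ef a b κ C X δ m₀ m +
        C * (((lam * m₀ : ℕ) : ℝ) + 1) ^ b' * (2 : ℝ) ^ (-((r - κ) * ((lam * m₀ : ℕ) : ℝ))) ≤
        C₂ * (((m₀ : ℝ) + 1) ^ a * (2 : ℝ) ^ (-(r * m₀))) := by
    have h1 := s₂ X m₀ N hPlo
    rw [← hN] at h1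
    have h2 := s₅ (lam * m₀)
    have h3 : (2 : ℝ) ^ ((r - κ) / 2 * ((lam * m₀ : ℕ) : ℝ)) *
        (2 : ℝ) ^ (-((r - κ) * ((lam * m₀ : ℕ) : ℝ))) ≤ (2 : ℝ) ^ (-(r * m₀)) := by
      rw [← Real.rpow_add (by norm_num)]
      refine Real.rpow_le_rpow_of_exponent_le (by norm_num) ?_
      rw [div_le_iff₀ hrκ] at hlam'
      push_cast
      have := mul_le_mul_of_nonneg_right hlam' hm0
      nlinarith
    have h4 : C * (((lam * m₀ : ℕ) : ℝ) + 1) ^ b' *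
        (2 : ℝ) ^ (-((r - κ) * ((lam * m₀ : ℕ) : ℝ))) ≤ C * M₅ * (2 : ℝ) ^ (-(r * m₀)) := by
      calc C * (((lam * m₀ : ℕ) : ℝ) + 1) ^ b' *
          (2 : ℝ) ^ (-((r - κ) * ((lam * m₀ : ℕ) : ℝ)))
          ≤ C * (M₅ * (2 : ℝ) ^ ((r - κ) / 2 * ((lam * m₀ : ℕ) : ℝ))) *
          (2 : ℝ) ^ (-((r - κ) * ((lam * m₀ : ℕ) : ℝ))) := by gcongr
        _ = C * M₅ * ((2 : ℝ) ^ ((r - κ) / 2 * ((lam * m₀ : ℕ) : ℝ)) *
          (2 : ℝ) ^ (-((r - κ) * ((lam * m₀ : ℕ) : ℝ)))) := by ring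
        _ ≤ _ := mul_le_mul_of_nonneg_left h3 (by positivity)
    have h5 : (1 : ℝ) ≤ ((m₀ : ℝ) + 1) ^ a := Real.one_le_rpow (by linarith) ha
    have h6 : C * M₅ * (2 : ℝ) ^ (-(r * (m₀ : ℝ))) ≤
        C * M₅ * (((m₀ : ℝ) + 1) ^ a * (2 : ℝ) ^ (-(r * (m₀ : ℝ)))) := by
      refine mul_le_mul_of_nonneg_left ?_ (by positivity)
      exact le_mul_of_one_le_left (by positivity) h5
    rw [hC₂, add_mul]
    linarith
  -- the covering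
  have hkf0 : ∀ m, 0 < kf X δ m₀ m := fun m => by unfold kf; positivity
  have hcov : ∀ m, CovF (S m) (ef a b κ C X δ m₀ m) (kf X δ m₀ m + 1) := by
    intro m
    unfold ef
    split_ifs
    · exact covA m _ (hkf0 m)
    · exact covB m _ (hkf0 m)
  obtain ⟨t, ht1, ht2, ht3⟩ := cov_sum S _ _ (fun m : ℕ => (2 : ℝ) ^ (-(r * m)))
    (fun m => by positivity) hcov (lam * m₀)
  have htc : t.card ≤ 2 ^ n := by
    have h1 : (t.card : ℝ) ≤ Real.exp (n * Real.log 2) :=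
      ht1.trans (Real.exp_le_exp.mpr hK)
    have h2 : Real.exp (n * Real.log 2) = 2 ^ n := by
      rw [mul_comm, Real.exp_mul, Real.exp_log (by norm_num), Real.rpow_natCast]
    rw [h2] at h1
    exact_mod_cast h1
  have hmain := entropy_le F n (C₂ * (((m₀ : ℝ) + 1) ^ a * (2 : ℝ) ^ (-(r * m₀)))) (by positivity)
    t htc ht2 fun f hf => by
      obtain ⟨g, hg1, hg2⟩ := dec f hf
      obtain ⟨y, hy, hyx⟩ := ht3 g hg1
      refine ⟨y, hy, ?_⟩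
      filter_upwards [hg2 (lam * m₀)] with x hx
      have h1 := norm_add_le (f x - ∑ m ∈ range (lam * m₀), (((2 : ℝ) ^ (-(r * m)) : ℝ) : ℂ) * g m x)
        (∑ m ∈ range (lam * m₀), (((2 : ℝ) ^ (-(r * m)) : ℝ) : ℂ) * g m x - y x)
      rw [sub_add_sub_cancel] at h1
      refine h1.trans ?_
      have h2 := hyx x
      linarith
  refine hmain.trans (ENNReal.ofReal_le_ofReal ?_)
  -- asymptotics
  have h4 : (2 : ℝ) ^ (-(m₀ : ℝ)) ≤ 2 / c * ((m₀ : ℝ) + 2) ^ b * (n : ℝ)⁻¹ := by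
    rw [Real.rpow_neg (by norm_num), Real.rpow_natCast]
    rw [inv_le_iff_one_le_mul₀ (by positivity)]
    have h5 : 2 / c * ((m₀ : ℝ) + 2) ^ b * (n : ℝ)⁻¹ * 2 ^ m₀ =
        (((m₀ : ℝ) + 2) ^ b * 2 ^ (m₀ + 1)) / (c * n) := by
      field_simp
      ring
    rw [h5, one_le_div (by positivity)]
    exact hPup.le
  have h5 : (2 : ℝ) ^ (-(r * m₀)) ≤
      (2 / c) ^ r * ((m₀ : ℝ) + 2) ^ (b * r) * (n : ℝ) ^ (-r) := by
    have h6 := Real.rpow_le_rpow (by positivity) h4 hr0.le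
    rw [← Real.rpow_mul (by norm_num), Real.mul_rpow (by positivity) (by positivity),
      Real.mul_rpow (by positivity) (by positivity),
      ← Real.rpow_mul (by positivity), Real.inv_rpow hnpos.le, ← Real.rpow_neg hnpos.le] at h6
    rwa [show -(r * (m₀ : ℝ)) = -(m₀ : ℝ) * r by ring]
  have h6 : ((m₀ : ℝ) + 1) ^ a ≤ ((m₀ : ℝ) + 2) ^ a :=
    Real.rpow_le_rpow (by positivity) (by linarith) ha
  have hlog0 : 0 ≤ Real.log n := Real.log_nonneg hn1'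
  calc C₂ * (((m₀ : ℝ) + 1) ^ a * (2 : ℝ) ^ (-(r * m₀)))
      ≤ C₂ * (((m₀ : ℝ) + 2) ^ a *
        ((2 / c) ^ r * ((m₀ : ℝ) + 2) ^ (b * r) * (n : ℝ) ^ (-r))) := by
        gcongr
    _ = C₂ * (2 / c) ^ r * ((m₀ : ℝ) + 2) ^ (a + b * r) * (n : ℝ) ^ (-r) := by
        rw [Real.rpow_add (by positivity)]
        ring
    _ ≤ C₂ * (2 / c) ^ r * (8 * Real.log n) ^ (a + b * r) *
          (n : ℝ) ^ (-r) := by
        gcongr
    _ = _ := by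
        rw [Real.mul_rpow (by norm_num) hlog0]
        ring

end Pool.Agent.Helper26.SB
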