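import Pool.Agent.Helper26.SB.SLTools

/-!
Module M16: summation over the levels, `r = 1/2`.
-/

open Finset MeasureTheory Filter
open scoped ENNReal Real

namespace Pool.Agent.Helper26.SB

open Pool.Agent.Helper60.SB

namespace SL16

/-- accuracy and bits of the low levels -/
theorem low_part (e : ℕ) (a' C : ℝ) (ha' : 0 ≤ a') (hC : 1 ≤ C) :
    ∃ M : ℝ, 0 < M ∧ ∀ m₀ : ℕ,
      ∑ m ∈ range m₀, (C * (1 + ((2 * (m₀ - m) : ℕ) : ℝ)) * ((m : ℝ) + 1) ^ e * 2 ^ m + 1) ≤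
        M * (((m₀ : ℝ) + 1) ^ e * 2 ^ m₀) + m₀ ∧
      ∑ m ∈ range m₀, (2 : ℝ) ^ (-(1 / 2 * (m : ℝ))) *
        (C * ((m : ℝ) + 1) ^ a' * (2 : ℝ) ^ (-((2 * (m₀ - m) : ℕ) : ℝ))) ≤
        M * (((m₀ : ℝ) + 1) ^ a' * (2 : ℝ) ^ (-(1 / 2 * (m₀ : ℝ)))) := by
  obtain ⟨M₁, hM₁, s₁⟩ := sum_bound 1 1 (by norm_num) (by norm_num)
  obtain ⟨M₂, hM₂, s₂⟩ := sum_bound 0 (3 / 2) le_rfl (by norm_num)
  refine ⟨3 * C * M₁ + C * M₂, by positivity, fun m₀ => ⟨?_, ?_⟩⟩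
  · rw [← Finset.sum_range_reflect]
    have h1 : ∀ i ∈ range m₀, C * (1 + ((2 * (m₀ - (m₀ - 1 - i)) : ℕ) : ℝ)) *
        (((m₀ - 1 - i : ℕ) : ℝ) + 1) ^ e * 2 ^ (m₀ - 1 - i) + 1 ≤
        3 * C * (((m₀ : ℝ) + 1) ^ e * 2 ^ m₀) *
          (((i : ℝ) + 1) ^ (1 : ℝ) * (2 : ℝ) ^ (-(1 * (i : ℝ)))) + 1 := by
      intro i hi
      have hi' := Finset.mem_range.mp hi
      have h2 : m₀ - (m₀ - 1 - i) = i + 1 := by omega
      have h3 : (((m₀ - 1 - i : ℕ) : ℝ) + 1) ^ e ≤ ((m₀ : ℝ) + 1) ^ e := by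
        refine pow_le_pow_left₀ (by positivity) ?_ _
        have : ((m₀ - 1 - i : ℕ) : ℝ) ≤ m₀ := by exact_mod_cast (by omega : m₀ - 1 - i ≤ m₀)
        linarith
      have h4 : (2 : ℝ) ^ (m₀ - 1 - i) ≤ 2 ^ m₀ * (2 : ℝ) ^ (-(1 * (i : ℝ))) := by
        have h5 : (2 : ℝ) ^ (m₀ - 1 - i) ≤ 2 ^ (m₀ - i) :=
          pow_le_pow_right₀ (by norm_num) (by omega)
        refine h5.trans (le_of_eq ?_)
        rw [one_mul, Real.rpow_neg (by norm_num), Real.rpow_natCast,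
          pow_sub₀ _ (by norm_num) (by omega)]
      rw [h2, Real.rpow_one]
      have h6 : 1 + ((2 * (i + 1) : ℕ) : ℝ) ≤ 3 * ((i : ℝ) + 1) := by
        push_cast
        linarith [(by positivity : (0 : ℝ) ≤ i)]
      have h7 : C * (1 + ((2 * (i + 1) : ℕ) : ℝ)) * (((m₀ - 1 - i : ℕ) : ℝ) + 1) ^ e *
          2 ^ (m₀ - 1 - i) ≤ C * (3 * ((i : ℝ) + 1)) * ((m₀ : ℝ) + 1) ^ e *
          (2 ^ m₀ * (2 : ℝ) ^ (-(1 * (i : ℝ)))) := by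
        gcongr
      refine add_le_add (h7.trans (le_of_eq ?_)) le_rfl
      ring
    refine (Finset.sum_le_sum h1).trans ?_
    rw [Finset.sum_add_distrib, ← Finset.mul_sum, Finset.sum_const, Finset.card_range,
      nsmul_eq_mul, mul_one]
    have h2 := mul_le_mul_of_nonneg_left (s₁ m₀)
      (by positivity : (0 : ℝ) ≤ 3 * C * (((m₀ : ℝ) + 1) ^ e * 2 ^ m₀))
    have h3 : 0 ≤ C * M₂ * (((m₀ : ℝ) + 1) ^ e * 2 ^ m₀) := by positivity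
    nlinarith
  · rw [← Finset.sum_range_reflect]
    have h1 : ∀ i ∈ range m₀, (2 : ℝ) ^ (-(1 / 2 * ((m₀ - 1 - i : ℕ) : ℝ))) *
        (C * (((m₀ - 1 - i : ℕ) : ℝ) + 1) ^ a' *
          (2 : ℝ) ^ (-((2 * (m₀ - (m₀ - 1 - i)) : ℕ) : ℝ))) ≤
        C * (((m₀ : ℝ) + 1) ^ a' * (2 : ℝ) ^ (-(1 / 2 * (m₀ : ℝ)))) *
          (((i : ℝ) + 1) ^ (0 : ℝ) * (2 : ℝ) ^ (-(3 / 2 * (i : ℝ)))) := by
      intro i hi
      have hi' := Finset.mem_range.mp hi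
      have h2 : m₀ - (m₀ - 1 - i) = i + 1 := by omega
      have h3 : (((m₀ - 1 - i : ℕ) : ℝ) + 1) ^ a' ≤ ((m₀ : ℝ) + 1) ^ a' := by
        refine Real.rpow_le_rpow (by positivity) ?_ ha'
        have : ((m₀ - 1 - i : ℕ) : ℝ) ≤ m₀ := by exact_mod_cast (by omega : m₀ - 1 - i ≤ m₀)
        linarith
      have h4 : (2 : ℝ) ^ (-(1 / 2 * ((m₀ - 1 - i : ℕ) : ℝ))) * (2 : ℝ) ^ (-((2 * (i + 1) : ℕ) : ℝ)) ≤
          (2 : ℝ) ^ (-(1 / 2 * (m₀ : ℝ))) * (2 : ℝ) ^ (-(3 / 2 * (i : ℝ))) := by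
        rw [← Real.rpow_add (by norm_num), ← Real.rpow_add (by norm_num)]
        refine Real.rpow_le_rpow_of_exponent_le (by norm_num) ?_
        have h5 : ((m₀ - 1 - i : ℕ) : ℝ) = m₀ - 1 - i := by
          rw [Nat.cast_sub (by omega), Nat.cast_sub (by omega)]
          push_cast
          ring
        rw [h5]
        push_cast
        linarith
      rw [h2, Real.rpow_zero, one_mul]
      calc (2 : ℝ) ^ (-(1 / 2 * ((m₀ - 1 - i : ℕ) : ℝ))) *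
            (C * (((m₀ - 1 - i : ℕ) : ℝ) + 1) ^ a' * (2 : ℝ) ^ (-((2 * (i + 1) : ℕ) : ℝ)))
          = C * (((m₀ - 1 - i : ℕ) : ℝ) + 1) ^ a' * ((2 : ℝ) ^ (-(1 / 2 * ((m₀ - 1 - i : ℕ) : ℝ))) *
            (2 : ℝ) ^ (-((2 * (i + 1) : ℕ) : ℝ))) := by ring
        _ ≤ C * ((m₀ : ℝ) + 1) ^ a' * ((2 : ℝ) ^ (-(1 / 2 * (m₀ : ℝ))) *
            (2 : ℝ) ^ (-(3 / 2 * (i : ℝ)))) := by
            refine mul_le_mul ?_ h4 (by positivity) (by positivity)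
            gcongr
        _ = _ := by ring
    refine (Finset.sum_le_sum h1).trans ?_
    rw [← Finset.mul_sum]
    have h2 := mul_le_mul_of_nonneg_left (s₂ m₀)
      (by positivity : (0 : ℝ) ≤ C * (((m₀ : ℝ) + 1) ^ a' * (2 : ℝ) ^ (-(1 / 2 * (m₀ : ℝ)))))
    have h3 : 0 ≤ 3 * C * M₁ * (((m₀ : ℝ) + 1) ^ a' * (2 : ℝ) ^ (-(1 / 2 * (m₀ : ℝ)))) := by
      positivity
    nlinarith

/-- bits of the high levels -/
theorem high_bits (δ : ℝ) (hδ : 0 < δ) : ∃ M : ℝ, 0 < M ∧ ∀ (X : ℝ) (N : ℕ), 0 < X →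
    ∑ i ∈ range N, (X * (2 : ℝ) ^ (-(δ * (i : ℝ))) + 1) ≤ M * X + N := by
  obtain ⟨M₁, hM₁, s₁⟩ := sum_bound 0 δ le_rfl hδ
  refine ⟨M₁, hM₁, fun X N hX => ?_⟩
  rw [Finset.sum_add_distrib, ← Finset.mul_sum, Finset.sum_const, Finset.card_range,
    nsmul_eq_mul, mul_one]
  have h := s₁ N
  simp only [Real.rpow_zero, one_mul] at h
  have := mul_le_mul_of_nonneg_left h hX.le
  linarith

theorem high_term (a b θ y X m t : ℝ) (hy : 0 < y) (hX : 0 < X) :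
    y ^ a * (y ^ b * (2 : ℝ) ^ m / (X * (2 : ℝ) ^ (-t))) ^ θ =
      y ^ (a + b * θ) * (2 : ℝ) ^ (m * θ) * X ^ (-θ) * (2 : ℝ) ^ (t * θ) := by
  rw [Real.div_rpow (by positivity) (by positivity), Real.mul_rpow (by positivity) (by positivity),
    Real.mul_rpow (by positivity) (by positivity), ← Real.rpow_mul (by positivity),
    ← Real.rpow_mul (by norm_num), ← Real.rpow_mul (by norm_num), Real.rpow_add hy,
    Real.rpow_neg hX.le, show -t * θ = -(t * θ) by ring, Real.rpow_neg (by norm_num)]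
  field_simp

/-- accuracy of the high levels -/
theorem high_err (κ a b C δ : ℝ) (hab2 : 0 ≤ a + b * κ) (hC : 1 ≤ C)
    (hδ2 : δ * κ < 1 / 2 - κ) :
    ∃ M : ℝ, 0 < M ∧ ∀ (X : ℝ) (m₁ N : ℕ), 0 < X →
      ∑ i ∈ range N, (2 : ℝ) ^ (-(1 / 2 * ((m₁ + i : ℕ) : ℝ))) *
        (C * (((m₁ + i : ℕ) : ℝ) + 1) ^ a * ((((m₁ + i : ℕ) : ℝ) + 1) ^ b * 2 ^ (m₁ + i) /
          (X * (2 : ℝ) ^ (-(δ * (i : ℝ))))) ^ κ) ≤
        M * (((m₁ : ℝ) + 1) ^ (a + b * κ) * X ^ (-κ) * (2 : ℝ) ^ (-((1 / 2 - κ) * m₁))) := by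
  obtain ⟨M₂, hM₂, s₂⟩ := sum_bound (a + b * κ) (1 / 2 - κ - δ * κ) hab2 (by linarith)
  refine ⟨C * M₂, by positivity, fun X m₁ N hX => ?_⟩
  have h1 : ∀ i ∈ range N, (2 : ℝ) ^ (-(1 / 2 * ((m₁ + i : ℕ) : ℝ))) *
        (C * (((m₁ + i : ℕ) : ℝ) + 1) ^ a * ((((m₁ + i : ℕ) : ℝ) + 1) ^ b * 2 ^ (m₁ + i) /
          (X * (2 : ℝ) ^ (-(δ * (i : ℝ))))) ^ κ) ≤
      C * (((m₁ : ℝ) + 1) ^ (a + b * κ) * X ^ (-κ) * (2 : ℝ) ^ (-((1 / 2 - κ) * m₁))) *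
        (((i : ℝ) + 1) ^ (a + b * κ) * (2 : ℝ) ^ (-((1 / 2 - κ - δ * κ) * (i : ℝ)))) := by
    intro i _
    have hm1 : (0 : ℝ) ≤ m₁ := by positivity
    have hi0 : (0 : ℝ) ≤ i := by positivity
    have h6 : ((m₁ + i : ℕ) : ℝ) = m₁ + i := by push_cast; ring
    have hk := high_term a b κ (((m₁ + i : ℕ) : ℝ) + 1) X ((m₁ + i : ℕ) : ℝ) (δ * i)
      (by positivity) hX
    rw [Real.rpow_natCast] at hk
    rw [mul_assoc C, hk]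
    have h2 : (((m₁ + i : ℕ) : ℝ) + 1) ^ (a + b * κ) ≤
        ((m₁ : ℝ) + 1) ^ (a + b * κ) * ((i : ℝ) + 1) ^ (a + b * κ) := by
      rw [← Real.mul_rpow (by positivity) (by positivity)]
      refine Real.rpow_le_rpow (by positivity) ?_ hab2
      rw [h6]
      nlinarith
    have h5 : (2 : ℝ) ^ (-(1 / 2 * ((m₁ + i : ℕ) : ℝ))) * (2 : ℝ) ^ (((m₁ + i : ℕ) : ℝ) * κ) *
        (2 : ℝ) ^ (δ * i * κ) =
        (2 : ℝ) ^ (-((1 / 2 - κ) * m₁)) * (2 : ℝ) ^ (-((1 / 2 - κ - δ * κ) * (i : ℝ))) := by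
      rw [← Real.rpow_add (by norm_num), ← Real.rpow_add (by norm_num),
        ← Real.rpow_add (by norm_num), h6]
      congr 1
      ring
    calc (2 : ℝ) ^ (-(1 / 2 * ((m₁ + i : ℕ) : ℝ))) * (C * ((((m₁ + i : ℕ) : ℝ) + 1) ^ (a + b * κ) *
          (2 : ℝ) ^ (((m₁ + i : ℕ) : ℝ) * κ) * X ^ (-κ) * (2 : ℝ) ^ (δ * i * κ)))
        = C * X ^ (-κ) * (((m₁ + i : ℕ) : ℝ) + 1) ^ (a + b * κ) *
          ((2 : ℝ) ^ (-(1 / 2 * ((m₁ + i : ℕ) : ℝ))) * (2 : ℝ) ^ (((m₁ + i : ℕ) : ℝ) * κ) *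
            (2 : ℝ) ^ (δ * i * κ)) := by ring
      _ ≤ C * X ^ (-κ) * (((m₁ : ℝ) + 1) ^ (a + b * κ) * ((i : ℝ) + 1) ^ (a + b * κ)) *
          ((2 : ℝ) ^ (-(1 / 2 * ((m₁ + i : ℕ) : ℝ))) * (2 : ℝ) ^ (((m₁ + i : ℕ) : ℝ) * κ) *
            (2 : ℝ) ^ (δ * i * κ)) := by gcongr
      _ = _ := by rw [h5]; ring
  refine (Finset.sum_le_sum h1).trans ?_
  rw [← Finset.mul_sum]
  have h2 := mul_le_mul_of_nonneg_left (s₂ N) (by positivity : (0 : ℝ) ≤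
    C * (((m₁ : ℝ) + 1) ^ (a + b * κ) * X ^ (-κ) * (2 : ℝ) ^ (-((1 / 2 - κ) * m₁))))
  refine h2.trans (le_of_eq ?_)
  ring

/-- `A ≍ L` implies `A^q ≤ C L^q` -/
theorem rpow_two_sided (q A L : ℝ) (hA : 0 < A) (hL : 0 < L) (h1 : A ≤ 8 * L) (h2 : L ≤ 3 * A) :
    A ^ q ≤ (8 ^ q + (1 / 3) ^ q) * L ^ q := by
  rcases le_or_gt 0 q with hq | hq
  · have h3 := Real.rpow_le_rpow hA.le h1 hq
    rw [Real.mul_rpow (by norm_num) hL.le] at h3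
    have h4 : 0 ≤ (1 / 3 : ℝ) ^ q * L ^ q := by positivity
    linarith
  · have h3 : (1 / 3) * L ≤ A := by linarith
    have h4 := Real.rpow_le_rpow_of_nonpos (by positivity) h3 hq.le
    rw [Real.mul_rpow (by norm_num) hL.le] at h4
    have h5 : 0 ≤ (8 : ℝ) ^ q * L ^ q := by positivity
    linarith

theorem asym_low (e : ℕ) (a' h c : ℝ) (ha' : 0 ≤ a') (h1 : a' + e / 2 ≤ h) (hc : 0 < c)
    (n L : ℝ) (m₀ : ℕ) (hn : 0 < n) (hL : 1 ≤ L)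
    (hup : c * n < ((m₀ : ℝ) + 2) ^ (e : ℝ) * 2 ^ (m₀ + 1)) (hm : (m₀ : ℝ) + 2 ≤ 8 * L) :
    ((m₀ : ℝ) + 1) ^ a' * (2 : ℝ) ^ (-(1 / 2 * (m₀ : ℝ))) ≤
      (2 / c) ^ (1 / 2 : ℝ) * 8 ^ (a' + e / 2) * (n ^ (-(1 / 2 : ℝ)) * L ^ h) := by
  have hm0 : (0 : ℝ) ≤ m₀ := by positivity
  have h4 : (2 : ℝ) ^ (-(m₀ : ℝ)) ≤ 2 / c * ((m₀ : ℝ) + 2) ^ (e : ℝ) * n⁻¹ := by
    rw [Real.rpow_neg (by norm_num), Real.rpow_natCast]
    rw [inv_le_iff_one_le_mul₀ (by positivity)]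
    have h5 : 2 / c * ((m₀ : ℝ) + 2) ^ (e : ℝ) * n⁻¹ * 2 ^ m₀ =
        (((m₀ : ℝ) + 2) ^ (e : ℝ) * 2 ^ (m₀ + 1)) / (c * n) := by
      field_simp
      ring
    rw [h5, one_le_div (by positivity)]
    exact hup.le
  have h5 : (2 : ℝ) ^ (-(1 / 2 * (m₀ : ℝ))) ≤
      (2 / c) ^ (1 / 2 : ℝ) * ((m₀ : ℝ) + 2) ^ ((e : ℝ) / 2) * n ^ (-(1 / 2 : ℝ)) := by
    have h6 := Real.rpow_le_rpow (by positivity) h4 (by norm_num : (0 : ℝ) ≤ 1 / 2)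
    rw [← Real.rpow_mul (by norm_num), Real.mul_rpow (by positivity) (by positivity),
      Real.mul_rpow (by positivity) (by positivity),
      ← Real.rpow_mul (by positivity), Real.inv_rpow hn.le, ← Real.rpow_neg hn.le] at h6
    rwa [show -(1 / 2 * (m₀ : ℝ)) = -(m₀ : ℝ) * (1 / 2) by ring,
      show (e : ℝ) / 2 = e * (1 / 2) by ring]
  have h6 : ((m₀ : ℝ) + 1) ^ a' ≤ ((m₀ : ℝ) + 2) ^ a' :=
    Real.rpow_le_rpow (by positivity) (by linarith) ha'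
  have hq : 0 ≤ a' + (e : ℝ) / 2 := by positivity
  calc ((m₀ : ℝ) + 1) ^ a' * (2 : ℝ) ^ (-(1 / 2 * (m₀ : ℝ)))
      ≤ ((m₀ : ℝ) + 2) ^ a' *
        ((2 / c) ^ (1 / 2 : ℝ) * ((m₀ : ℝ) + 2) ^ ((e : ℝ) / 2) * n ^ (-(1 / 2 : ℝ))) := by
        gcongr
    _ = (2 / c) ^ (1 / 2 : ℝ) * ((m₀ : ℝ) + 2) ^ (a' + (e : ℝ) / 2) * n ^ (-(1 / 2 : ℝ)) := by
        rw [Real.rpow_add (by positivity)]
        ring
    _ ≤ (2 / c) ^ (1 / 2 : ℝ) * (8 * L) ^ (a' + (e : ℝ) / 2) * n ^ (-(1 / 2 : ℝ)) := by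
        gcongr
    _ = (2 / c) ^ (1 / 2 : ℝ) * 8 ^ (a' + (e : ℝ) / 2) * (n ^ (-(1 / 2 : ℝ)) *
          L ^ (a' + (e : ℝ) / 2)) := by
        rw [Real.mul_rpow (by norm_num) (by linarith)]
        ring
    _ ≤ _ := by
        gcongr

theorem asym_high (κ a b h c : ℝ) (hκr : κ < 1 / 2) (hab2 : 0 ≤ a + b * κ)
    (h2 : a + b / 2 ≤ h) (hc : 0 < c)
    (n L : ℝ) (ms m₁ : ℕ) (hn : 0 < n) (hL : 1 ≤ L)
    (hup : c * n < ((ms : ℝ) + 2) ^ b * 2 ^ (ms + 1)) (hm : (ms : ℝ) + 2 ≤ 8 * L)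
    (hm' : L ≤ 3 * ((ms : ℝ) + 1)) (hm1 : ms + 1 ≤ m₁) (hm1' : (m₁ : ℝ) + 1 ≤ 8 * L) :
    ((m₁ : ℝ) + 1) ^ (a + b * κ) * (c * n) ^ (-κ) * (2 : ℝ) ^ (-((1 / 2 - κ) * m₁)) ≤
      8 ^ (a + b * κ) * (8 ^ (b * (1 / 2 - κ)) + (1 / 3) ^ (b * (1 / 2 - κ))) *
        c ^ (-(1 / 2 : ℝ)) * (n ^ (-(1 / 2 : ℝ)) * L ^ h) := by
  have hms : (0 : ℝ) ≤ ms := by positivity
  have hcn : 0 < c * n := by positivity
  have hdk : 0 < 1 / 2 - κ := by linarith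
  have h4 : (2 : ℝ) ^ (-(m₁ : ℝ)) ≤ ((ms : ℝ) + 2) ^ b * (c * n)⁻¹ := by
    have h5 : (2 : ℝ) ^ (-(m₁ : ℝ)) ≤ (2 : ℝ) ^ (-((ms + 1 : ℕ) : ℝ)) := by
      refine Real.rpow_le_rpow_of_exponent_le (by norm_num) ?_
      have : ((ms + 1 : ℕ) : ℝ) ≤ m₁ := by exact_mod_cast hm1
      linarith
    refine h5.trans ?_
    rw [Real.rpow_neg (by norm_num), Real.rpow_natCast, ← div_eq_mul_inv, le_div_iff₀ hcn,
      inv_mul_le_iff₀ (by positivity)]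
    linarith
  have h5 : (2 : ℝ) ^ (-((1 / 2 - κ) * m₁)) ≤
      ((ms : ℝ) + 2) ^ (b * (1 / 2 - κ)) * (c * n) ^ (-(1 / 2 - κ)) := by
    have h6 := Real.rpow_le_rpow (by positivity) h4 hdk.le
    rw [← Real.rpow_mul (by norm_num), Real.mul_rpow (by positivity) (by positivity),
      ← Real.rpow_mul (by positivity), Real.inv_rpow hcn.le, ← Real.rpow_neg hcn.le] at h6
    rwa [show -((1 / 2 - κ) * (m₁ : ℝ)) = -(m₁ : ℝ) * (1 / 2 - κ) by ring]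
  have h6 := rpow_two_sided (b * (1 / 2 - κ)) ((ms : ℝ) + 2) L (by positivity) (by linarith) hm
    (by linarith)
  have h7 : ((m₁ : ℝ) + 1) ^ (a + b * κ) ≤ (8 * L) ^ (a + b * κ) :=
    Real.rpow_le_rpow (by positivity) hm1' hab2
  have hL0 : 0 < L := by linarith
  calc ((m₁ : ℝ) + 1) ^ (a + b * κ) * (c * n) ^ (-κ) * (2 : ℝ) ^ (-((1 / 2 - κ) * m₁))
      ≤ (8 * L) ^ (a + b * κ) * (c * n) ^ (-κ) *
        (((8 : ℝ) ^ (b * (1 / 2 - κ)) + (1 / 3) ^ (b * (1 / 2 - κ))) * L ^ (b * (1 / 2 - κ)) *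
          (c * n) ^ (-(1 / 2 - κ))) := by
        refine mul_le_mul ?_ (h5.trans ?_) (by positivity) (by positivity)
        · gcongr
        · gcongr
    _ = 8 ^ (a + b * κ) * (8 ^ (b * (1 / 2 - κ)) + (1 / 3) ^ (b * (1 / 2 - κ))) *
          ((c * n) ^ (-κ) * (c * n) ^ (-(1 / 2 - κ))) *
          (L ^ (a + b * κ) * L ^ (b * (1 / 2 - κ))) := by
        rw [Real.mul_rpow (by norm_num) hL0.le]
        ring
    _ = 8 ^ (a + b * κ) * (8 ^ (b * (1 / 2 - κ)) + (1 / 3) ^ (b * (1 / 2 - κ))) *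
          c ^ (-(1 / 2 : ℝ)) * (n ^ (-(1 / 2 : ℝ)) * L ^ (a + b / 2)) := by
        rw [← Real.rpow_add hcn, ← Real.rpow_add hL0, show -κ + -(1 / 2 - κ) = -(1 / 2 : ℝ) by ring,
          show a + b * κ + b * (1 / 2 - κ) = a + b / 2 by ring,
          Real.mul_rpow hc.le hn.le]
        ring
    _ ≤ _ := by
        gcongr

/-- the length of the window -/
theorem window_len (e : ℕ) (b X L : ℝ) (m₀ ms : ℕ) (hL : 1 ≤ L) (hLL : 1 ≤ Real.log L)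
    (h0 : X < ((m₀ : ℝ) + 2) ^ (e : ℝ) * 2 ^ (m₀ + 1)) (hm0 : (m₀ : ℝ) + 2 ≤ 8 * L)
    (hs : ((ms : ℝ) + 1) ^ b * 2 ^ ms ≤ X) (hms : (ms : ℝ) + 2 ≤ 8 * L) :
    (((max m₀ ms + 1) - m₀ : ℕ) : ℝ) ≤
      (2 * Real.log 2 + ((e : ℝ) + |b|) * (Real.log 8 + 1)) / Real.log 2 * Real.log L := by
  have hl2 : 0 < Real.log 2 := Real.log_pos (by norm_num)
  have hl8 : 0 ≤ Real.log 8 := Real.log_nonneg (by norm_num)
  have hL0 : 0 < L := by linarith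
  rcases le_total ms m₀ with hle | hle
  · rw [max_eq_left hle]
    have h1 : ((m₀ + 1 - m₀ : ℕ) : ℝ) = 1 := by
      rw [Nat.add_sub_cancel_left]; norm_num
    rw [h1, div_mul_eq_mul_div, le_div_iff₀ hl2]
    have h2 : 0 ≤ ((e : ℝ) + |b|) * (Real.log 8 + 1) := by positivity
    nlinarith
  · rw [max_eq_right hle]
    have h1 : ((ms + 1 - m₀ : ℕ) : ℝ) = (ms : ℝ) - m₀ + 1 := by
      rw [Nat.cast_sub (by omega)]; push_cast; ring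
    have hms0 : (0 : ℝ) ≤ ms := by positivity
    have hm00 : (0 : ℝ) ≤ m₀ := by positivity
    -- 2^(ms) ≤ 2 * (8L)^(e+|b|) * 2^m0
    have h2 : (2 : ℝ) ^ ms < 2 * (8 * L) ^ ((e : ℝ) + |b|) * 2 ^ m₀ := by
      have h3 : ((ms : ℝ) + 1) ^ (-|b|) ≤ ((ms : ℝ) + 1) ^ b :=
        Real.rpow_le_rpow_of_exponent_le (by linarith) (neg_abs_le b)
      have h4 : ((ms : ℝ) + 1) ^ (-|b|) * 2 ^ ms < ((m₀ : ℝ) + 2) ^ (e : ℝ) * 2 ^ (m₀ + 1) := by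
        refine lt_of_le_of_lt ?_ h0
        refine le_trans ?_ hs
        gcongr
      rw [Real.rpow_neg (by positivity), inv_mul_lt_iff₀ (by positivity)] at h4
      have h5 : ((ms : ℝ) + 1) ^ |b| ≤ (8 * L) ^ |b| :=
        Real.rpow_le_rpow (by positivity) (by linarith) (abs_nonneg b)
      have h6 : ((m₀ : ℝ) + 2) ^ (e : ℝ) ≤ (8 * L) ^ (e : ℝ) :=
        Real.rpow_le_rpow (by positivity) hm0 (by positivity)
      refine h4.trans_le ?_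
      calc ((ms : ℝ) + 1) ^ |b| * (((m₀ : ℝ) + 2) ^ (e : ℝ) * 2 ^ (m₀ + 1))
          ≤ (8 * L) ^ |b| * ((8 * L) ^ (e : ℝ) * 2 ^ (m₀ + 1)) := by gcongr
        _ = _ := by
            rw [Real.rpow_add (by positivity), pow_succ]
            ring
    have h3 := Real.log_lt_log (by positivity) h2
    rw [Real.log_pow, Real.log_mul (by positivity) (by positivity),
      Real.log_mul (by norm_num) (by positivity), Real.log_pow, Real.log_rpow (by positivity),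
      Real.log_mul (by norm_num) hL0.ne'] at h3
    rw [h1, div_mul_eq_mul_div, le_div_iff₀ hl2]
    have h4 : Real.log 8 + Real.log L ≤ (Real.log 8 + 1) * Real.log L := by nlinarith
    have h5 : ((e : ℝ) + |b|) * (Real.log 8 + Real.log L) ≤
        ((e : ℝ) + |b|) * ((Real.log 8 + 1) * Real.log L) := by gcongr
    nlinarith

end SL16

/-- sums of three coverings -/
theorem cov3 {d : ℕ} (t₁ t₂ t₃ : Finset ((Fin d → ℝ) → ℂ)) (K₁ K₂ K₃ : ℝ)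
    (h₁ : (t₁.card : ℝ) ≤ Real.exp K₁) (h₂ : (t₂.card : ℝ) ≤ Real.exp K₂)
    (h₃ : (t₃.card : ℝ) ≤ Real.exp K₃) (m₁ : ∀ y ∈ t₁, MemLp y ⊤ (tor d))
    (m₂ : ∀ y ∈ t₂, MemLp y ⊤ (tor d)) (m₃ : ∀ y ∈ t₃, MemLp y ⊤ (tor d)) :
    ∃ t : Finset ((Fin d → ℝ) → ℂ), (t.card : ℝ) ≤ Real.exp (K₁ + K₂ + K₃) ∧
      (∀ y ∈ t, MemLp y ⊤ (tor d)) ∧
      ∀ y₁ ∈ t₁, ∀ y₂ ∈ t₂, ∀ y₃ ∈ t₃, y₁ + y₂ + y₃ ∈ t := by
  classical
  refine ⟨Finset.image₂ (fun y z => y + z) (Finset.image₂ (fun y z => y + z) t₁ t₂) t₃, ?_, ?_, ?_⟩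
  · rw [Real.exp_add, Real.exp_add]
    have e1 := Finset.card_image₂_le (fun y z : (Fin d → ℝ) → ℂ => y + z) t₁ t₂
    have e2 := Finset.card_image₂_le (fun y z : (Fin d → ℝ) → ℂ => y + z)
      (Finset.image₂ (fun y z => y + z) t₁ t₂) t₃
    have e3 : (Finset.image₂ (fun y z => y + z) (Finset.image₂ (fun y z => y + z) t₁ t₂) t₃).card ≤
        t₁.card * t₂.card * t₃.card := e2.trans (Nat.mul_le_mul_right _ e1)
    calc ((Finset.image₂ (fun y z => y + z) (Finset.image₂ (fun y z => y + z) t₁ t₂) t₃).card : ℝ)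
        ≤ ((t₁.card * t₂.card * t₃.card : ℕ) : ℝ) := by exact_mod_cast e3
      _ = t₁.card * t₂.card * t₃.card := by push_cast; ring
      _ ≤ _ := by gcongr
  · intro w hw
    obtain ⟨y, hy, z, hz, rfl⟩ := Finset.mem_image₂.mp hw
    obtain ⟨y', hy', z', hz', rfl⟩ := Finset.mem_image₂.mp hy
    exact ((m₁ y' hy').add (m₂ z' hz')).add (m₃ z hz)
  · intro y₁ h1 y₂ h2 y₃ h3
    exact Finset.mem_image₂_of_mem (Finset.mem_image₂_of_mem h1 h2) h3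

open SL16 in
theorem sum_half (e : ℕ) (κ a b b' a' g h C : ℝ) (hκ : 0 < κ) (hκr : κ < 1 / 2)
    (ha : 0 ≤ a) (ha' : 0 ≤ a') (hb' : 0 ≤ b') (hg : 0 < g) (hh : 0 ≤ h) (hC : 1 ≤ C)
    (h1 : a' + e / 2 ≤ h) (h2 : a + b / 2 ≤ h) (hab2 : 0 ≤ a + b * κ)
    (F : Set ((Fin (e + 1) → ℝ) → ℂ)) (S : ℕ → Set ((Fin (e + 1) → ℝ) → ℂ))
    (Wd : ℕ → ℕ → Set ((Fin (e + 1) → ℝ) → ℂ))
    (low : ∀ m j : ℕ, CovF (S m) (C * ((m : ℝ) + 1) ^ a' * (2 : ℝ) ^ (-(j : ℝ)))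
      (C * (1 + j) * ((m : ℝ) + 1) ^ e * 2 ^ m + 1))
    (win : ∀ (m₀ m₁ : ℕ) (K : ℝ), m₀ < m₁ → 0 < K → CovF (Wd m₀ m₁)
      (C * ((m₁ - m₀ : ℕ) : ℝ) ^ g * ((m₁ : ℝ) + 1) ^ h / Real.sqrt K) (K + 1))
    (covB : ∀ (m : ℕ) (K : ℝ), 0 < K → CovF (S m)
      (C * ((m : ℝ) + 1) ^ a * (((m : ℝ) + 1) ^ b * 2 ^ m / K) ^ κ) (K + 1))
    (dec : ∀ f ∈ F, ∃ g : ℕ → (Fin (e + 1) → ℝ) → ℂ, (∀ m, g m ∈ S m) ∧
      (∀ m₀ m₁ : ℕ, (fun x => ∑ m ∈ Finset.Ico m₀ m₁,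
        (((2 : ℝ) ^ (-(1 / 2 * (m : ℝ))) : ℝ) : ℂ) * g m x) ∈ Wd m₀ m₁) ∧ ∀ J : ℕ,
      ∀ᵐ x ∂(tor (e + 1)),
        ‖f x - ∑ m ∈ range J, (((2 : ℝ) ^ (-(1 / 2 * (m : ℝ))) : ℝ) : ℂ) * g m x‖ ≤
          C * ((J : ℝ) + 1) ^ b' * (2 : ℝ) ^ (-((1 / 2 - κ) * J))) :
    ∃ C' > 0, ∃ n₀ : ℕ, ∀ n ≥ n₀, entropyNumber n F ≤
      ENNReal.ofReal (C' * (n : ℝ) ^ (-(1 / 2 : ℝ)) * Real.log n ^ h *
        Real.log (Real.log n) ^ g) := by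
  have hdk : 0 < 1 / 2 - κ := by linarith
  have hl2 : 0 < Real.log 2 := Real.log_pos (by norm_num)
  have hl8 : 0 < Real.log 8 := Real.log_pos (by norm_num)
  -- parameters
  set δ : ℝ := (1 / 2 - κ) / (2 * κ) with hδ
  have hδ0 : 0 < δ := by positivity
  have hδ2 : δ * κ < 1 / 2 - κ := by
    have h3 : δ * κ = (1 / 2 - κ) / 2 := by rw [hδ]; field_simp
    linarith
  obtain ⟨M₁, hM₁, s₁⟩ := low_part e a' C ha' hC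
  obtain ⟨M₂, hM₂, s₂⟩ := high_bits δ hδ0
  obtain ⟨M₃, hM₃, s₃⟩ := high_err κ a b C δ hab2 hC hδ2
  obtain ⟨M₅, hM₅, s₅⟩ := poly_exp b' ((1 / 2 - κ) / 2) hb' (by positivity)
  set c : ℝ := 1 / (8 * (M₁ + M₂)) with hc
  have hc0 : 0 < c := by positivity
  set Λ : ℝ := 1 / ((1 / 2 - κ) * Real.log 2) with hΛ
  have hΛ0 : 0 < Λ := by positivity
  set D₁ : ℝ := (2 / c) ^ (1 / 2 : ℝ) * 8 ^ (a' + (e : ℝ) / 2) with hD₁
  set D₂ : ℝ := 8 ^ (a + b * κ) * (8 ^ (b * (1 / 2 - κ)) + (1 / 3) ^ (b * (1 / 2 - κ))) *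
        c ^ (-(1 / 2 : ℝ)) with hD₂
  set D₃ : ℝ := (2 * Real.log 2 + ((e : ℝ) + |b|) * (Real.log 8 + 1)) / Real.log 2 with hD₃
  have hD₁0 : 0 < D₁ := by positivity
  have hD₂0 : 0 < D₂ := by positivity
  have hD₃0 : 0 < D₃ := by positivity
  set C₀ : ℝ := M₁ * D₁ + 2 * C * D₃ ^ g * 8 ^ h + M₃ * D₂ + C * M₅ with hC₀
  have hC₀0 : 0 < C₀ := by positivity
  -- eventual bounds
  have hlogt : Tendsto (fun n : ℕ => Real.log (n : ℝ)) atTop atTop :=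
    Real.tendsto_log_atTop.comp tendsto_natCast_atTop_atTop
  have hlogt2 : Tendsto (fun n : ℕ => Real.log (Real.log (n : ℝ))) atTop atTop :=
    Real.tendsto_log_atTop.comp hlogt
  have hlin : ∀ᶠ n : ℕ in atTop, (16 + Λ) * Real.log n + 4 ≤ 1 / 4 * n := by
    have h1 := Real.isLittleO_log_id_atTop.comp_tendsto (tendsto_natCast_atTop_atTop (R := ℝ))
    have h2 := h1.def (c := 1 / (8 * (16 + Λ))) (by positivity)
    filter_upwards [h2, eventually_ge_atTop 32] with n hn hn1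
    simp only [Function.comp, id, Real.norm_eq_abs] at hn
    have hn1' : (32 : ℝ) ≤ n := by exact_mod_cast hn1
    rw [abs_of_nonneg (Real.log_nonneg (by linarith)), abs_of_nonneg (by positivity)] at hn
    have h3 : (16 + Λ) * Real.log n ≤ 1 / 8 * n := by
      calc (16 + Λ) * Real.log n ≤ (16 + Λ) * (1 / (8 * (16 + Λ)) * n) := by gcongr
        _ = _ := by field_simp
    linarith
  have hevent := (cross (e : ℝ) c hc0).and ((cross b c hc0).and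
    (hlin.and ((eventually_ge_atTop 1).and ((hlogt.eventually_ge_atTop 1).and
      (hlogt2.eventually_ge_atTop 1)))))
  obtain ⟨n₀, hn₀⟩ := eventually_atTop.mp hevent
  refine ⟨C₀, hC₀0, n₀, fun n hn => ?_⟩
  obtain ⟨⟨m₀, -, hPlo, hPup, hmn, -⟩, ⟨ms, -, hQlo, hQup, hsn, hsn'⟩, hlinn, hn1, hL1, hLL1⟩ :=
    hn₀ n hn
  have hn1' : (1 : ℝ) ≤ n := by exact_mod_cast hn1
  have hnpos : (0 : ℝ) < n := by linarith
  have hm0 : (0 : ℝ) ≤ m₀ := by positivity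
  have hms0 : (0 : ℝ) ≤ ms := by positivity
  set L : ℝ := Real.log n with hL
  set LL : ℝ := Real.log L with hLL
  have hL0 : 0 < L := by linarith
  set X : ℝ := c * n with hX
  have hX0 : 0 < X := by positivity
  set m₁ : ℕ := max m₀ ms + 1 with hm₁
  have hm01 : m₀ < m₁ := by omega
  have hm₁' : (m₁ : ℝ) + 1 ≤ 8 * L := by
    rw [hm₁]
    push_cast
    rcases le_total (m₀ : ℝ) ms with hle | hle
    · rw [max_eq_right hle]; linarith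
    · rw [max_eq_left hle]; linarith
  set N : ℕ := ⌈Λ * L⌉₊ with hN
  have hN1 : Λ * L ≤ N := Nat.le_ceil _
  have hN2 : (N : ℝ) ≤ Λ * L + 1 := (Nat.ceil_lt_add_one (by positivity)).le
  -- the three coverings
  obtain ⟨t₁, ht11, ht12, ht13⟩ := cov_sum S _ _ (fun m : ℕ => (2 : ℝ) ^ (-(1 / 2 * (m : ℝ))))
    (fun m => by positivity) (fun m => low m (2 * (m₀ - m))) m₀
  obtain ⟨t₂, ht21, ht22, ht23⟩ := win m₀ m₁ (n / 4) hm01 (by positivity)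
  obtain ⟨t₃, ht31, ht32, ht33⟩ := cov_sum (fun i => S (m₁ + i)) _ _
    (fun i : ℕ => (2 : ℝ) ^ (-(1 / 2 * ((m₁ + i : ℕ) : ℝ))))
    (fun m => by positivity) (fun i => covB (m₁ + i) (X * (2 : ℝ) ^ (-(δ * (i : ℝ))))
      (by positivity)) N
  obtain ⟨t, ht1, ht2, ht3⟩ := cov3 t₁ t₂ t₃ _ _ _ ht11 ht21 ht31 ht12 ht22 ht32
  -- the number of bits
  obtain ⟨hB1, hE1⟩ := s₁ m₀
  have hB2 := s₂ X N hX0
  have hE2 := s₃ X m₁ N hX0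
  rw [Real.rpow_natCast] at hPlo
  have hbits : ∑ m ∈ range m₀, (C * (1 + ((2 * (m₀ - m) : ℕ) : ℝ)) * ((m : ℝ) + 1) ^ e * 2 ^ m + 1) +
      ((n : ℝ) / 4 + 1) + ∑ i ∈ range N, (X * (2 : ℝ) ^ (-(δ * (i : ℝ))) + 1) ≤
      n * Real.log 2 := by
    have h3 : M₁ * (((m₀ : ℝ) + 1) ^ e * 2 ^ m₀) ≤ M₁ * X := by gcongr
    have h4 : M₁ * X + M₂ * X = n / 8 := by
      rw [hX, hc]
      field_simp
    have h5 : (0.69 : ℝ) ≤ Real.log 2 := by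
      have := Real.log_two_gt_d9
      linarith
    have h6 : (n : ℝ) * 0.69 ≤ n * Real.log 2 := by gcongr
    linarith
  have htc : t.card ≤ 2 ^ n := by
    have h3 : (t.card : ℝ) ≤ Real.exp (n * Real.log 2) :=
      ht1.trans (Real.exp_le_exp.mpr hbits)
    have h4 : Real.exp (n * Real.log 2) = 2 ^ n := by
      rw [mul_comm, Real.exp_mul, Real.exp_log (by norm_num), Real.rpow_natCast]
    rw [h4] at h3
    exact_mod_cast h3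
  -- the accuracy
  set R : ℝ := (n : ℝ) ^ (-(1 / 2 : ℝ)) * L ^ h with hR
  have hR0 : 0 < R := by positivity
  have hLg : 1 ≤ LL ^ g := Real.one_le_rpow hLL1 hg.le
  have hLh : 1 ≤ L ^ h := Real.one_le_rpow hL1 hh
  have hA1 := asym_low e a' h c ha' h1 hc0 n L m₀ hnpos hL1 hPup hmn
  have hA2 := asym_high κ a b h c hκr hab2 h2 hc0 n L ms m₁ hnpos hL1 hQup hsn hsn'
    (by omega) hm₁'
  have hA3 := window_len e b X L m₀ ms hL1 hLL1 hPup hmn hQlo hsn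
  rw [← hm₁] at hA3
  -- tail
  have hA4 : C * (((m₁ + N : ℕ) : ℝ) + 1) ^ b' * (2 : ℝ) ^ (-((1 / 2 - κ) * ((m₁ + N : ℕ) : ℝ))) ≤
      C * M₅ * R := by
    have h3 := s₅ (m₁ + N)
    have h4 : (2 : ℝ) ^ ((1 / 2 - κ) / 2 * ((m₁ + N : ℕ) : ℝ)) *
        (2 : ℝ) ^ (-((1 / 2 - κ) * ((m₁ + N : ℕ) : ℝ))) ≤ (n : ℝ) ^ (-(1 / 2 : ℝ)) := by
      rw [← Real.rpow_add (by norm_num), Real.rpow_def_of_pos (by norm_num),
        Real.rpow_def_of_pos hnpos]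
      refine Real.exp_le_exp.mpr ?_
      rw [← hL]
      have h5 : Λ * L * ((1 / 2 - κ) * Real.log 2) = L := by
        have hne : (1 / 2 - κ) * Real.log 2 ≠ 0 := by positivity
        rw [hΛ, mul_right_comm, one_div, inv_mul_cancel₀ hne, one_mul]
      have h6 : (N : ℝ) ≤ ((m₁ + N : ℕ) : ℝ) := by push_cast; linarith [(by positivity : (0 : ℝ) ≤ m₁)]
      have h7 : Λ * L * ((1 / 2 - κ) * Real.log 2) ≤
          ((m₁ + N : ℕ) : ℝ) * ((1 / 2 - κ) * Real.log 2) := by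
        gcongr
        exact hN1.trans h6
      linarith
    calc C * (((m₁ + N : ℕ) : ℝ) + 1) ^ b' * (2 : ℝ) ^ (-((1 / 2 - κ) * ((m₁ + N : ℕ) : ℝ)))
        ≤ C * (M₅ * (2 : ℝ) ^ ((1 / 2 - κ) / 2 * ((m₁ + N : ℕ) : ℝ))) *
          (2 : ℝ) ^ (-((1 / 2 - κ) * ((m₁ + N : ℕ) : ℝ))) := by gcongr
      _ = C * M₅ * ((2 : ℝ) ^ ((1 / 2 - κ) / 2 * ((m₁ + N : ℕ) : ℝ)) *
          (2 : ℝ) ^ (-((1 / 2 - κ) * ((m₁ + N : ℕ) : ℝ)))) := by ring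
      _ ≤ C * M₅ * (n : ℝ) ^ (-(1 / 2 : ℝ)) := mul_le_mul_of_nonneg_left h4 (by positivity)
      _ ≤ _ := by
          refine mul_le_mul_of_nonneg_left ?_ (by positivity)
          exact le_mul_of_one_le_right (by positivity) hLh
  -- window
  have hA5 : C * ((m₁ - m₀ : ℕ) : ℝ) ^ g * ((m₁ : ℝ) + 1) ^ h / Real.sqrt (n / 4) ≤
      2 * C * D₃ ^ g * 8 ^ h * (R * LL ^ g) := by
    have h3 : Real.sqrt (n / 4) = (n : ℝ) ^ (1 / 2 : ℝ) / 2 := by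
      rw [Real.sqrt_div' _ (by norm_num), Real.sqrt_eq_rpow,
        show Real.sqrt 4 = 2 by
          rw [show (4 : ℝ) = 2 ^ 2 by norm_num]; exact Real.sqrt_sq (by norm_num)]
    have h4 : ((m₁ - m₀ : ℕ) : ℝ) ^ g ≤ D₃ ^ g * LL ^ g := by
      rw [← Real.mul_rpow hD₃0.le (by linarith)]
      exact Real.rpow_le_rpow (by positivity) hA3 hg.le
    have h5 : ((m₁ : ℝ) + 1) ^ h ≤ 8 ^ h * L ^ h := by
      rw [← Real.mul_rpow (by norm_num) hL0.le]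
      exact Real.rpow_le_rpow (by positivity) hm₁' hh
    rw [h3, hR, Real.rpow_neg hnpos.le]
    calc C * ((m₁ - m₀ : ℕ) : ℝ) ^ g * ((m₁ : ℝ) + 1) ^ h / ((n : ℝ) ^ (1 / 2 : ℝ) / 2)
        ≤ C * (D₃ ^ g * LL ^ g) * (8 ^ h * L ^ h) / ((n : ℝ) ^ (1 / 2 : ℝ) / 2) := by gcongr
      _ = _ := by
          field_simp
  have hfinal : M₁ * (((m₀ : ℝ) + 1) ^ a' * (2 : ℝ) ^ (-(1 / 2 * (m₀ : ℝ)))) +
      2 * C * D₃ ^ g * 8 ^ h * (R * LL ^ g) +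
      M₃ * (((m₁ : ℝ) + 1) ^ (a + b * κ) * X ^ (-κ) * (2 : ℝ) ^ (-((1 / 2 - κ) * m₁))) +
      C * M₅ * R ≤ C₀ * (n : ℝ) ^ (-(1 / 2 : ℝ)) * L ^ h * LL ^ g := by
    have h3 : M₁ * (((m₀ : ℝ) + 1) ^ a' * (2 : ℝ) ^ (-(1 / 2 * (m₀ : ℝ)))) ≤ M₁ * (D₁ * R) :=
      mul_le_mul_of_nonneg_left hA1 hM₁.le
    have h4 : M₃ * (((m₁ : ℝ) + 1) ^ (a + b * κ) * X ^ (-κ) *
        (2 : ℝ) ^ (-((1 / 2 - κ) * m₁))) ≤ M₃ * (D₂ * R) :=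
      mul_le_mul_of_nonneg_left hA2 hM₃.le
    have h5 : R ≤ R * LL ^ g := le_mul_of_one_le_right hR0.le hLg
    have h6 : M₁ * (D₁ * R) ≤ M₁ * (D₁ * (R * LL ^ g)) := by gcongr
    have h7 : M₃ * (D₂ * R) ≤ M₃ * (D₂ * (R * LL ^ g)) := by gcongr
    have h8 : C * M₅ * R ≤ C * M₅ * (R * LL ^ g) := by gcongr
    have h9 : C₀ * (n : ℝ) ^ (-(1 / 2 : ℝ)) * L ^ h * LL ^ g = C₀ * (R * LL ^ g) := by
      rw [hR]; ring
    rw [h9, hC₀]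
    linarith
  refine (entropy_le F n (C₀ * (n : ℝ) ^ (-(1 / 2 : ℝ)) * L ^ h * LL ^ g) (by positivity)
    t htc ht2 fun f hf => ?_)
  obtain ⟨g', hg1, hg2, hg3⟩ := dec f hf
  obtain ⟨y₁, hy₁, hyx₁⟩ := ht13 g' hg1
  obtain ⟨y₂, hy₂, hyx₂⟩ := ht23 _ (hg2 m₀ m₁)
  obtain ⟨y₃, hy₃, hyx₃⟩ := ht33 (fun i => g' (m₁ + i)) (fun i => hg1 _)
  refine ⟨y₁ + y₂ + y₃, ht3 y₁ hy₁ y₂ hy₂ y₃ hy₃, ?_⟩
  filter_upwards [hg3 (m₁ + N)] with x hx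
  have e1 : ∑ m ∈ range (m₁ + N), (((2 : ℝ) ^ (-(1 / 2 * (m : ℝ))) : ℝ) : ℂ) * g' m x =
      ∑ m ∈ range m₀, (((2 : ℝ) ^ (-(1 / 2 * (m : ℝ))) : ℝ) : ℂ) * g' m x +
      ∑ m ∈ Finset.Ico m₀ m₁, (((2 : ℝ) ^ (-(1 / 2 * (m : ℝ))) : ℝ) : ℂ) * g' m x +
      ∑ i ∈ range N, (((2 : ℝ) ^ (-(1 / 2 * ((m₁ + i : ℕ) : ℝ))) : ℝ) : ℂ) * g' (m₁ + i) x := by
    rw [Finset.sum_range_add, Finset.sum_range_add_sum_Ico _ hm01.le]
  have e2 : f x - (y₁ + y₂ + y₃) x =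
      (f x - ∑ m ∈ range (m₁ + N), (((2 : ℝ) ^ (-(1 / 2 * (m : ℝ))) : ℝ) : ℂ) * g' m x) +
      (∑ m ∈ range m₀, (((2 : ℝ) ^ (-(1 / 2 * (m : ℝ))) : ℝ) : ℂ) * g' m x - y₁ x) +
      (∑ m ∈ Finset.Ico m₀ m₁, (((2 : ℝ) ^ (-(1 / 2 * (m : ℝ))) : ℝ) : ℂ) * g' m x - y₂ x) +
      (∑ i ∈ range N, (((2 : ℝ) ^ (-(1 / 2 * ((m₁ + i : ℕ) : ℝ))) : ℝ) : ℂ) * g' (m₁ + i) x -
        y₃ x) := by
    rw [e1]
    simp only [Pi.add_apply]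
    ring
  rw [e2]
  refine (norm_add_le _ _).trans ?_
  refine (add_le_add ((norm_add_le _ _).trans (add_le_add (norm_add_le _ _) le_rfl)) le_rfl).trans ?_
  have hz1 := hyx₁ x
  have hz2 := hyx₂ x
  have hz3 := hyx₃ x
  linarith

end Pool.Agent.Helper26.SB
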