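import Pool.Agent.Helper60.SB.Defs4

/-!
Common tools for the summation over the levels (modules M15, M16); the first five lemmas are
copied from Helper7/SB/SumLevels.lean (there private).
-/

open Finset MeasureTheory Filter
open scoped ENNReal Real

namespace Pool.Agent.Helper26.SB

open Pool.Agent.Helper60.SB

/-- powers are dominated by exponentials -/
theorem poly_exp (p η : ℝ) (hp : 0 ≤ p) (hη : 0 < η) :
    ∃ M : ℝ, 0 < M ∧ ∀ i : ℕ, ((i : ℝ) + 1) ^ p ≤ M * (2 : ℝ) ^ (η * i) := by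
  set s : ℝ := η * Real.log 2 / (p + 1) with hs
  have hl : 0 < Real.log 2 := Real.log_pos (by norm_num)
  have hs0 : 0 < s := by positivity
  refine ⟨s⁻¹ ^ p * (2 : ℝ) ^ η, by positivity, fun i => ?_⟩
  have h1 : (i : ℝ) + 1 ≤ s⁻¹ * Real.exp (s * (i + 1)) := by
    rw [← div_eq_inv_mul, le_div_iff₀ hs0]
    have := Real.add_one_le_exp (s * ((i : ℝ) + 1))
    linarith
  have h2 : ((i : ℝ) + 1) ^ p ≤ (s⁻¹ * Real.exp (s * (i + 1))) ^ p :=
    Real.rpow_le_rpow (by positivity) h1 hp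
  have h3 : (s⁻¹ * Real.exp (s * ((i : ℝ) + 1))) ^ p = s⁻¹ ^ p * Real.exp (s * p * (i + 1)) := by
    rw [Real.mul_rpow (by positivity) (by positivity), ← Real.exp_mul]
    congr 2
    ring
  have h4 : Real.exp (s * p * ((i : ℝ) + 1)) ≤ (2 : ℝ) ^ η * (2 : ℝ) ^ (η * i) := by
    rw [← Real.rpow_add (by norm_num), Real.rpow_def_of_pos (by norm_num)]
    refine Real.exp_le_exp.mpr ?_
    have h5 : s * p ≤ η * Real.log 2 := by
      rw [hs, div_mul_eq_mul_div, div_le_iff₀ (by positivity)]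
      have : 0 ≤ η * Real.log 2 := by positivity
      nlinarith
    have h6 : (0 : ℝ) ≤ (i : ℝ) + 1 := by positivity
    have := mul_le_mul_of_nonneg_right h5 h6
    linarith
  calc ((i : ℝ) + 1) ^ p ≤ s⁻¹ ^ p * Real.exp (s * p * (i + 1)) := h2.trans_eq h3
    _ ≤ s⁻¹ ^ p * ((2 : ℝ) ^ η * (2 : ℝ) ^ (η * i)) :=
        mul_le_mul_of_nonneg_left h4 (by positivity)
    _ = _ := by ring

theorem sum_bound (p η : ℝ) (hp : 0 ≤ p) (hη : 0 < η) :
    ∃ M : ℝ, 0 < M ∧ ∀ N : ℕ, ∑ i ∈ range N, ((i : ℝ) + 1) ^ p * (2 : ℝ) ^ (-(η * i)) ≤ M := by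
  obtain ⟨M, hM, h⟩ := poly_exp p (η / 2) hp (by positivity)
  set x : ℝ := (2 : ℝ) ^ (-(η / 2)) with hx
  have hx0 : 0 < x := by positivity
  have hx1 : x < 1 := Real.rpow_lt_one_of_one_lt_of_neg (by norm_num) (by linarith)
  refine ⟨M * (1 - x)⁻¹, by have : 0 < 1 - x := by linarith
                            positivity, fun N => ?_⟩
  have h1 : ∀ i : ℕ, ((i : ℝ) + 1) ^ p * (2 : ℝ) ^ (-(η * i)) ≤ M * x ^ i := by
    intro i
    have h2 : x ^ i = (2 : ℝ) ^ (η / 2 * i) * (2 : ℝ) ^ (-(η * i)) := by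
      rw [hx, ← Real.rpow_natCast, ← Real.rpow_mul (by norm_num), ← Real.rpow_add (by norm_num)]
      congr 1
      ring
    rw [h2, ← mul_assoc]
    exact mul_le_mul_of_nonneg_right (h i) (by positivity)
  calc ∑ i ∈ range N, ((i : ℝ) + 1) ^ p * (2 : ℝ) ^ (-(η * i))
      ≤ ∑ i ∈ range N, M * x ^ i := Finset.sum_le_sum fun i _ => h1 i
    _ = M * ∑ i ∈ range N, x ^ i := by rw [Finset.mul_sum]
    _ ≤ M * (1 - x)⁻¹ := by
        refine mul_le_mul_of_nonneg_left ?_ hM.le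
        rw [← tsum_geometric_of_lt_one hx0.le hx1]
        exact (summable_geometric_of_lt_one hx0.le hx1).sum_le_tsum _
          (fun i _ => by positivity)

/-- coverings of sums -/
theorem cov_sum {d : ℕ} (S : ℕ → Set ((Fin d → ℝ) → ℂ)) (ε K c : ℕ → ℝ)
    (hc : ∀ m, 0 ≤ c m) (h : ∀ m, CovF (S m) (ε m) (K m)) (J : ℕ) :
    ∃ t : Finset ((Fin d → ℝ) → ℂ), (t.card : ℝ) ≤ Real.exp (∑ m ∈ range J, K m) ∧
      (∀ y ∈ t, MemLp y ⊤ (tor d)) ∧ ∀ g : ℕ → (Fin d → ℝ) → ℂ, (∀ m, g m ∈ S m) →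
        ∃ y ∈ t, ∀ x, ‖∑ m ∈ range J, (c m : ℂ) * g m x - y x‖ ≤ ∑ m ∈ range J, c m * ε m := by
  classical
  induction J with
  | zero =>
    refine ⟨{0}, by simp, ?_, fun g _ => ⟨0, by simp, fun x => by simp⟩⟩
    intro y hy
    rw [Finset.mem_singleton.mp hy]
    exact MemLp.zero
  | succ J ih =>
    obtain ⟨t, h1, h2, h3⟩ := ih
    obtain ⟨t', h1', h2', h3'⟩ := h J
    refine ⟨Finset.image₂ (fun y z => y + (c J : ℂ) • z) t t', ?_, ?_, ?_⟩
    · rw [Finset.sum_range_succ, Real.exp_add]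
      have := Finset.card_image₂_le (fun y z : (Fin d → ℝ) → ℂ => y + (c J : ℂ) • z) t t'
      calc ((Finset.image₂ (fun y z => y + (c J : ℂ) • z) t t').card : ℝ)
          ≤ ((t.card * t'.card : ℕ) : ℝ) := by exact_mod_cast this
        _ = t.card * t'.card := by push_cast; ring
        _ ≤ _ := mul_le_mul h1 h1' (by positivity) (by positivity)
    · intro w hw
      obtain ⟨y, hy, z, hz, rfl⟩ := Finset.mem_image₂.mp hw
      exact (h2 y hy).add ((h2' z hz).const_smul _)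
    · intro g hg
      obtain ⟨y, hy, hy'⟩ := h3 g hg
      obtain ⟨z, hz, hz'⟩ := h3' (g J) (hg J)
      refine ⟨y + (c J : ℂ) • z, Finset.mem_image₂_of_mem hy hz, fun x => ?_⟩
      rw [Finset.sum_range_succ, Finset.sum_range_succ]
      have h4 : ∑ m ∈ range J, (c m : ℂ) * g m x + (c J : ℂ) * g J x -
          (y + (c J : ℂ) • z) x = (∑ m ∈ range J, (c m : ℂ) * g m x - y x) +
            (c J : ℂ) * (g J x - z x) := by
        simp only [Pi.add_apply, Pi.smul_apply, smul_eq_mul]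
        ring
      rw [h4]
      refine (norm_add_le _ _).trans (add_le_add (hy' x) ?_)
      rw [norm_mul, Complex.norm_real, Real.norm_of_nonneg (hc J)]
      exact mul_le_mul_of_nonneg_left (hz' x) (hc J)

/-- from coverings to entropy numbers -/
theorem entropy_le {d : ℕ} (F : Set ((Fin d → ℝ) → ℂ)) (n : ℕ) (ε : ℝ) (hε : 0 < ε)
    (t : Finset ((Fin d → ℝ) → ℂ)) (ht : t.card ≤ 2 ^ n) (hm : ∀ y ∈ t, MemLp y ⊤ (tor d))
    (h : ∀ f ∈ F, ∃ y ∈ t, ∀ᵐ x ∂(tor d), ‖f x - y x‖ ≤ ε) :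
    entropyNumber n F ≤ ENNReal.ofReal ε := by
  classical
  refine sInf_le ⟨by simpa using hε, fun j => if hj : (j : ℕ) < t.card then
    (t.equivFin.symm ⟨j, hj⟩ : (Fin d → ℝ) → ℂ) else 0, fun j => ?_, fun f hf => ?_⟩
  · simp only
    split_ifs with hj
    · exact hm _ (t.equivFin.symm ⟨j, hj⟩).2
    · exact MemLp.zero
  · obtain ⟨y, hy, hyx⟩ := h f hf
    have h1 := (t.equivFin ⟨y, hy⟩).2
    refine ⟨⟨t.equivFin ⟨y, hy⟩, lt_of_lt_of_le h1 ht⟩, ?_⟩
    simp only [h1, dite_true, Fin.eta, Equiv.symm_apply_apply]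
    rw [eLpNorm_exponent_top]
    exact eLpNormEssSup_le_of_ae_bound (by simpa using hyx)

/-- splitting of a sum at the level `m₀` -/
theorem split_sum (m₀ N : ℕ) (f u v : ℕ → ℝ) (A B c M₁ M₂ : ℝ) (hA : 0 ≤ A) (hB : 0 ≤ B)
    (hlow : ∀ i, i ≤ m₀ → f (m₀ - i) ≤ A * u i + c)
    (hhigh : ∀ i, f (m₀ + 1 + i) ≤ B * v (i + 1) + c) (hu : ∀ N, ∑ i ∈ range N, u i ≤ M₁)
    (hv : ∀ N, ∑ i ∈ range N, v i ≤ M₂) (hv0 : 0 ≤ v 0) :
    ∑ m ∈ range (m₀ + 1 + N), f m ≤ A * M₁ + B * M₂ + c * (((m₀ + 1 + N : ℕ)) : ℝ) := by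
  rw [Finset.sum_range_add, ← Finset.sum_range_reflect]
  have h1 : ∑ i ∈ range (m₀ + 1), f (m₀ + 1 - 1 - i) ≤ A * M₁ + c * (m₀ + 1) := by
    calc ∑ i ∈ range (m₀ + 1), f (m₀ + 1 - 1 - i) ≤ ∑ i ∈ range (m₀ + 1), (A * u i + c) := by
          refine Finset.sum_le_sum fun i hi => ?_
          rw [Nat.add_sub_cancel]
          exact hlow i (by have := Finset.mem_range.mp hi; omega)
      _ = A * ∑ i ∈ range (m₀ + 1), u i + c * (m₀ + 1) := by
          rw [Finset.sum_add_distrib, ← Finset.mul_sum, Finset.sum_const, Finset.card_range,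
            nsmul_eq_mul]
          push_cast
          ring
      _ ≤ _ := add_le_add (mul_le_mul_of_nonneg_left (hu _) hA) le_rfl
  have h2 : ∑ i ∈ range N, f (m₀ + 1 + i) ≤ B * M₂ + c * N := by
    calc ∑ i ∈ range N, f (m₀ + 1 + i) ≤ ∑ i ∈ range N, (B * v (i + 1) + c) :=
          Finset.sum_le_sum fun i _ => hhigh i
      _ = B * ∑ i ∈ range N, v (i + 1) + c * N := by
          rw [Finset.sum_add_distrib, ← Finset.mul_sum, Finset.sum_const, Finset.card_range,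
            nsmul_eq_mul]
          ring
      _ ≤ _ := by
          refine add_le_add (mul_le_mul_of_nonneg_left ?_ hB) le_rfl
          have := hv (N + 1)
          rw [Finset.sum_range_succ'] at this
          linarith
  refine (add_le_add h1 h2).trans (le_of_eq ?_)
  push_cast
  ring


/-- the crossing level of `(m+1)^b 2^m` with `c n` -/
theorem cross (b c : ℝ) (hc : 0 < c) : ∀ᶠ n : ℕ in atTop, ∃ m : ℕ, 1 ≤ m ∧
    ((m : ℝ) + 1) ^ b * 2 ^ m ≤ c * n ∧ c * n < ((m : ℝ) + 2) ^ b * 2 ^ (m + 1) ∧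
    (m : ℝ) + 2 ≤ 8 * Real.log n ∧ Real.log n ≤ 3 * ((m : ℝ) + 1) := by
  obtain ⟨M, hM, hpe⟩ := poly_exp |b| (1 / 2) (abs_nonneg b) (by norm_num)
  have hl2 : 0 < Real.log 2 := Real.log_pos (by norm_num)
  -- bounds for P
  have hup : ∀ m : ℕ, ((m : ℝ) + 1) ^ b ≤ M * (2 : ℝ) ^ ((1 / 2 : ℝ) * m) := fun m =>
    (Real.rpow_le_rpow_of_exponent_le (by linarith [(by positivity : (0 : ℝ) ≤ m)])
      (le_abs_self b)).trans (hpe m)
  have hlo : ∀ m : ℕ, M⁻¹ * (2 : ℝ) ^ (-((1 / 2 : ℝ) * m)) ≤ ((m : ℝ) + 1) ^ b := by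
    intro m
    have h1 : ((m : ℝ) + 1) ^ (-|b|) ≤ ((m : ℝ) + 1) ^ b :=
      Real.rpow_le_rpow_of_exponent_le (by linarith [(by positivity : (0 : ℝ) ≤ m)])
        (neg_abs_le b)
    refine le_trans ?_ h1
    rw [Real.rpow_neg (by norm_num), Real.rpow_neg (by positivity), ← mul_inv]
    exact inv_anti₀ (by positivity) (hpe m)
  have hlo2 : ∀ m : ℕ, M⁻¹ * (2 : ℝ) ^ ((1 / 2 : ℝ) * m) ≤ ((m : ℝ) + 1) ^ b * 2 ^ m := by
    intro m
    have h1 := mul_le_mul_of_nonneg_right (hlo m) (by positivity : (0 : ℝ) ≤ 2 ^ m)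
    refine le_trans (le_of_eq ?_) h1
    rw [mul_assoc, ← Real.rpow_natCast 2 m, ← Real.rpow_add (by norm_num)]
    congr 2
    ring
  have ev1 : ∀ᶠ n : ℕ in atTop, 1 < c * (n : ℝ) := by
    have h1 : Tendsto (fun n : ℕ => c * (n : ℝ)) atTop atTop :=
      tendsto_natCast_atTop_atTop.const_mul_atTop hc
    exact h1.eventually_gt_atTop 1
  have hlogt : Tendsto (fun n : ℕ => Real.log (n : ℝ)) atTop atTop :=
    Real.tendsto_log_atTop.comp tendsto_natCast_atTop_atTop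
  filter_upwards [ev1, hlogt.eventually_ge_atTop 7, hlogt.eventually_ge_atTop (Real.log (c * M)),
    hlogt.eventually_ge_atTop (-2 * Real.log (c / M)), eventually_gt_atTop 0] with n h1 h2 h3 h4 h5
  have hn0 : (0 : ℝ) < n := by exact_mod_cast h5
  classical
  have hex : ∃ m : ℕ, c * n < ((m : ℝ) + 1) ^ b * 2 ^ m := by
    have ht : Tendsto (fun m : ℕ => M⁻¹ * ((2 : ℝ) ^ (1 / 2 : ℝ)) ^ m) atTop atTop :=
      (tendsto_pow_atTop_atTop_of_one_lt
        (Real.one_lt_rpow (by norm_num) (by norm_num))).const_mul_atTop (by positivity)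
    obtain ⟨m, hm⟩ := (ht.eventually_gt_atTop (c * n)).exists
    refine ⟨m, hm.trans_le (le_trans (le_of_eq ?_) (hlo2 m))⟩
    rw [← Real.rpow_natCast, ← Real.rpow_mul (by norm_num)]
  have hspec := Nat.find_spec hex
  have hlt : 0 < Nat.find hex := by
    by_contra hle
    have h0 : Nat.find hex = 0 := by omega
    rw [h0] at hspec
    norm_num at hspec
    linarith
  obtain ⟨k, hk⟩ : ∃ k, Nat.find hex = k + 1 := ⟨Nat.find hex - 1, by omega⟩
  have hmin : ((k : ℝ) + 1) ^ b * 2 ^ k ≤ c * n :=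
    not_lt.mp (Nat.find_min hex (m := k) (by omega))
  rw [hk] at hspec
  have hkl : (k : ℝ) * (Real.log 2) ≤ 4 * Real.log n := by
    have h6 := (hlo2 k).trans hmin
    have h7 : (2 : ℝ) ^ ((1 / 2 : ℝ) * k) ≤ c * M * n := by
      rw [inv_mul_le_iff₀ hM] at h6
      linarith
    have h8 := Real.log_le_log (by positivity) h7
    rw [Real.log_rpow (by norm_num), Real.log_mul (by positivity) hn0.ne'] at h8
    linarith
  have hlk : Real.log n ≤ 3 * ((k : ℝ) + 1) := by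
    have h6 := hup (k + 1)
    have h7 : c * n ≤ M * (2 : ℝ) ^ ((3 / 2 : ℝ) * ((k : ℝ) + 1)) := by
      refine hspec.le.trans ?_
      refine (mul_le_mul_of_nonneg_right h6 (by positivity)).trans (le_of_eq ?_)
      rw [mul_assoc, ← Real.rpow_natCast 2 (k + 1), ← Real.rpow_add (by norm_num)]
      congr 2
      push_cast
      ring
    have h8 : c / M * n ≤ (2 : ℝ) ^ ((3 / 2 : ℝ) * ((k : ℝ) + 1)) := by
      rw [div_mul_eq_mul_div, div_le_iff₀ hM]
      linarith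
    have h9 := Real.log_le_log (by positivity) h8
    rw [Real.log_rpow (by norm_num), Real.log_mul (by positivity) hn0.ne'] at h9
    have h10 : Real.log 2 ≤ 1 := by
      have := Real.log_two_lt_d9
      linarith
    have h11 : (3 / 2 : ℝ) * ((k : ℝ) + 1) * Real.log 2 ≤ (3 / 2 : ℝ) * ((k : ℝ) + 1) * 1 := by
      gcongr
    linarith
  refine ⟨k, ?_, hmin, ?_, ?_, hlk⟩
  · have h6 : (1 : ℝ) < k := by linarith
    exact_mod_cast h6.le
  · have h6 : ((k + 1 : ℕ) : ℝ) + 1 = (k : ℝ) + 2 := by push_cast; ring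
    rwa [h6] at hspec
  · have h6 : (0.69 : ℝ) ≤ Real.log 2 := by
      have := Real.log_two_gt_d9
      linarith
    have h7 : (k : ℝ) * 0.69 ≤ k * Real.log 2 := by gcongr
    linarith

/-- the basic inequality of the levels -/
theorem key_ineq (a b θ Y y X m t m₀ : ℝ) (hθ : 0 ≤ θ) (hY : 0 < Y) (hy : 0 < y)
    (hX : Y ^ b * (2 : ℝ) ^ m₀ ≤ X) :
    y ^ a * (y ^ b * (2 : ℝ) ^ m / (X * (2 : ℝ) ^ (-t))) ^ θ ≤
      Y ^ a * (y / Y) ^ (a + b * θ) * (2 : ℝ) ^ ((m - m₀ + t) * θ) := by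
  have h1 : y ^ b * (2 : ℝ) ^ m / (X * (2 : ℝ) ^ (-t)) ≤
      y ^ b * (2 : ℝ) ^ m / (Y ^ b * (2 : ℝ) ^ m₀ * (2 : ℝ) ^ (-t)) := by
    gcongr
  have h2 : y ^ b * (2 : ℝ) ^ m / (Y ^ b * (2 : ℝ) ^ m₀ * (2 : ℝ) ^ (-t)) =
      (y / Y) ^ b * (2 : ℝ) ^ (m - m₀ + t) := by
    rw [Real.div_rpow hy.le hY.le, Real.rpow_add (by norm_num), Real.rpow_sub (by norm_num),
      Real.rpow_neg (by norm_num)]
    field_simp
  rw [h2] at h1
  have hX0 : 0 < X := lt_of_lt_of_le (by positivity) hX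
  have h3 := Real.rpow_le_rpow (by positivity) h1 hθ
  refine (mul_le_mul_of_nonneg_left h3 (by positivity)).trans (le_of_eq ?_)
  rw [Real.mul_rpow (by positivity) (by positivity), ← Real.rpow_mul (by positivity),
    ← Real.rpow_mul (by norm_num), Real.rpow_add (by positivity), Real.div_rpow hy.le hY.le a]
  field_simp

end Pool.Agent.Helper26.SB
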